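import Mathlib
import Pool.Agent.helper58.LE.GenDefs

/-!
# Project LE (MP_baa4d7_al), the frozen hypotheses (v3) and the interface of the final assembly

`HP` (`helper58/LE/GenDefs`): a hypothesis on `(G, D, T)`, `T = TT M D θ`. `RGT D T`: the elements of `D` on which `T / cz D` acts regularly (`RG M D θ` for `T = TT M D θ`).
-/

set_option autoImplicit false

namespace Pool.Agent.LE

open Pool.Agent.helper58.DC Pool.Agent.DI Pool.Agent.GR Pool.Agent.OB Pool.Agent.DR Pool.Agent.FI Pool.Agent.FI3 Pool.Agent.FI4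

section

variable {G : Type} [Group G]

/-- The regular elements of `D`. -/
def RGT (D T : Subgroup G) : Set G := {u | u ∈ D ∧ ∀ t ∈ T, t * u = u * t → t ∈ cz D}

/-- `K ≤ D` is invariant under `T`, all its elements are `p ^ (h + 1)`-th powers in `D`, all elements of the coset `u K` are regular, and `g = 0` or `u ^ p ^ g ∉ K`. -/
structure KRT (p : ℕ) (D T : Subgroup G) (h g : ℕ) (K : Subgroup G) (u : G) : Prop where
  le : K ≤ D
  pw : ∀ k ∈ K, ∃ v ∈ D, v ^ p ^ (h + 1) = k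
  inv : ∀ t ∈ T, ∀ k ∈ K, t * k * t⁻¹ ∈ K
  mem : u ∈ D
  reg : ∀ k ∈ K, u * k ∈ RGT D T
  ord : g = 0 ∨ u ^ p ^ g ∉ K

end

/-- The hypothesis for the bound `l(B) ≤ p ^ c`. -/
def HLE (p c h : ℕ) : HP := fun G _ _ D T =>
  (∃ (g : ℕ) (K : Subgroup G) (u : G), KRT p D T h g K u ∧ Nat.card D ≤ p ^ (c + g) * Nat.card K) ∧
    (cz D).relIndex T * Nat.card D < p ^ (2 * h + 2) * (RGT D T).ncard

/-- Every `t ∈ T` which acts non-trivially on `D` has a commutator of order at least `p ^ c`. -/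
def HWE (p c : ℕ) : HP := fun _ _ _ D T =>
  ∀ t ∈ T, t ∉ cz D → ∃ w ∈ D, (w⁻¹ * t * w * t⁻¹) ^ p ^ (c - 1) ≠ 1

/-- The heights are zero. -/
def HZE (p : ℕ) : HP := fun _ _ _ D T => (cz D).relIndex T * Nat.card D < p ^ 2 * (RGT D T).ncard

/-- Both hypotheses. -/
def HAnd (H H' : HP) : HP := fun G _ _ D T => H G D T ∧ H' G D T

theorem RGT_eq {G : Type} [Group G] (M : Ideal (integralClosure ℤ ℂ)) (D : Subgroup G) (θ : G → ℂ) :
    RGT D (TT M D θ) = RG M D θ := rfl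

/-- **HHE**: heredity. -/
def HHE_stmt : Prop :=
  ∀ (p : ℕ), p.Prime → ∀ c h : ℕ, Her p (HLE p c h) ∧ Her p (HWE p c) ∧ Her p (HZE p) ∧
    Her p (HAnd (HLE p c h) (HWE p c)) ∧ Her p (HAnd (HLE p c h) (HZE p)) ∧
    Her p (HAnd (HAnd (HLE p c h) (HWE p c)) (HZE p))

/-- **BDE** (BOUND-K of helper12 and HTL_ht of helper1). -/
def BDE_stmt : Prop :=
  ∀ (p : ℕ) (M : Ideal (integralClosure ℤ ℂ)), Setup p M → p ≠ 2 → ∀ c h : ℕ, BDH p M (HLE p c h) (p ^ c)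

/-- **HZH** (`HTL_ht` of helper1). -/
def HZH_stmt : Prop :=
  ∀ (p : ℕ) (M : Ideal (integralClosure ℤ ℂ)), Setup p M → p ≠ 2 → HTH p M (HZE p)

/-- **DVZ** (helper37). Divisibility without heights. -/
def DVZ_stmt : Prop :=
  ∀ (p : ℕ) (M : Ideal (integralClosure ℤ ℂ)), Setup p M → p ≠ 2 → ∀ (G : Type) [Group G] [Finite G]
    (D : Subgroup G) (x : G) (θ χ : G → ℂ), Rt p M D x θ χ → ∀ c : ℕ, 1 ≤ c →
    ∀ R : Subgroup G, IsOp p (⊤ : Subgroup G) R → R ≤ D → ∀ z ∈ D, z ^ p ^ (c - 1) ∉ R →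
    ∃ m : ℤ, ∑ᶠ C ∈ {C : Finset (Subgroup G) | NCh p ⊤ R C},
      (-1 : ℂ) ^ (C.card + 1) * ((Nat.card (nrm C) : ℂ) * LL p M χ (nrm C)) =
        (p : ℂ) ^ c * (Nat.card G : ℂ) * m

/-- **P2L** (part 2: all groups; `MNG` of helper58 with NIL, BDE, DVZ). -/
def P2L_stmt : Prop :=
  ∀ (p : ℕ) (M : Ideal (integralClosure ℤ ℂ)), Setup p M → p ≠ 2 → ∀ c h : ℕ, 1 ≤ c →
    MNH p M (HAnd (HLE p c h) (HWE p c))

/-- **P1S** (part 1: `O_p(G) = 1`; helper37's induction). The sum over `d`. -/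
def P1S_stmt : Prop :=
  ∀ (p : ℕ) (M : Ideal (integralClosure ℤ ℂ)), Setup p M → p ≠ 2 → ∀ c h : ℕ, 1 ≤ c →
    ∀ (G : Type) [Group G] [Finite G] (D : Subgroup G) (x : G) (θ χ : G → ℂ), Rt p M D x θ χ →
    HLE p c h G D (TT M D θ) → (∃ z ∈ D, z ^ p ^ (c - 1) ≠ 1) → IsOp p (⊤ : Subgroup G) ⊥ →
    ∑ᶠ d : ℤ, altSum (trivE G) p M χ d ⊤ = 0

/-- **P1D** (part 1 and 3: each `d`). -/
def P1D_stmt : Prop :=
  ∀ (p : ℕ) (M : Ideal (integralClosure ℤ ℂ)), Setup p M → p ≠ 2 → ∀ c h : ℕ, 1 ≤ c →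
    ∀ (G : Type) [Group G] [Finite G] (D : Subgroup G) (x : G) (θ χ : G → ℂ), Rt p M D x θ χ →
    HLE p c h G D (TT M D θ) → HZE p G D (TT M D θ) → (∃ z ∈ D, z ^ p ^ (c - 1) ≠ 1) →
    IsOp p (⊤ : Subgroup G) ⊥ → ∀ d : ℤ, altSum (trivE G) p M χ d ⊤ = 0

end Pool.Agent.LE
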