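import Mathlib
import Pool.Agent.helper59.FI4.Defs
import Pool.Agent.helper70.FI4.DefsK

/-!
# Project LE (MP_baa4d7_al): blocks with abelian defect group of large exponent, arbitrary inertial quotient. Definitions and interface

Paper proof: `/team-store/LE_baa4d7_helper70.md`. Notation of FI, FI3, FI4: `C = cz D`, `T = TT M D θ`, `I = T / C` (order `iI M D θ`), `RG`, `RP`, `LL`.
-/

set_option autoImplicit false

namespace Pool.Agent.LE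

open Pool.Agent.helper58.DC Pool.Agent.DI Pool.Agent.GR Pool.Agent.OB Pool.Agent.DR Pool.Agent.FI Pool.Agent.FI3 Pool.Agent.FI4

/-- All characters in a block with abelian defect group have height zero (the theorem of Kessar and Malle, 2013), for the given `p`, `M` and all finite groups. -/
def KM (p : ℕ) (M : Ideal (integralClosure ℤ ℂ)) : Prop :=
  ∀ (G : Type) [Group G] [Finite G] (D : Subgroup G) (x : G) (θ χ : G → ℂ), Rt p M D x θ χ →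
    ∀ ψ ∈ Blk M χ (⊤ : Subgroup G), ∀ a : ℕ, Nat.card D = p ^ a → Defect p ⊤ ψ a

/-- The hypothesis. `n` is an upper bound of the order of the inertial quotient, every `t` in it which acts non-trivially on `D` has a commutator `[w, t]`, `w ∈ D`, of order at least `p ^ (c + h)`;
`p ^ c` is a bound for the number of Brauer characters (`bnd`, two versions), `h` a bound for the heights (`hgt`: from the size of `n`, or by the theorem of Kessar and Malle). -/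
structure HL {G : Type} [Group G] (p : ℕ) (M : Ideal (integralClosure ℤ ℂ)) (D : Subgroup G) (θ : G → ℂ)
    (n c h : ℕ) : Prop where
  pos : 1 ≤ c
  le : iI M D θ ≤ n
  wit : ∀ t ∈ TT M D θ, t ∉ cz D → ∃ w ∈ D, (w⁻¹ * t * w * t⁻¹) ^ p ^ (c + h - 1) ≠ 1
  bnd : (4 * n * {u : G | u ∈ D ∧ orderOf u ≤ 4 * p * n}.ncard ≤ p ^ c ∧ 16 ^ n * n < p ^ c) ∨
    (h = 0 ∧ ∃ j : ℕ, 1 ≤ j ∧ j ≤ c ∧ n ≤ p ^ j ∧ {u : G | u ∈ D ∧ u ^ p ^ j = 1}.ncard ≤ p ^ c)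
  hgt : n * p ^ (c + h) + p ^ (2 * h + 2) * (n - 1) < p ^ (2 * h + 2) * p ^ (c + h) ∨ (h = 0 ∧ KM p M)

/-- **NIL** (block NIL). No hypothesis on the inertial quotient. -/
def NIL_stmt : Prop :=
  ∀ (p : ℕ) (M : Ideal (integralClosure ℤ ℂ)), Setup p M → p ≠ 2 → ∀ (G : Type) [Group G] [Finite G]
    (D : Subgroup G) (x : G) (θ χ : G → ℂ), Rt p M D x θ χ → ∀ R : Subgroup G, R ≤ D → nz R = ⊤ →
    RP M D θ R → LL p M χ ⊤ = LL p M χ (nz D)

/-- **BDL** (block BOUND-L). -/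
def BDL_stmt : Prop :=
  ∀ (p : ℕ) (M : Ideal (integralClosure ℤ ℂ)), Setup p M → p ≠ 2 → ∀ (G : Type) [Group G] [Finite G]
    (D : Subgroup G) (x : G) (θ χ : G → ℂ), Rt p M D x θ χ → ∀ n c h : ℕ, HL p M D θ n c h →
    ∃ l : ℕ, LL p M χ ⊤ = l ∧ 1 ≤ l ∧ l ≤ p ^ c

/-- **HTL** (block HEIGHT-L). All heights are at most `h`. -/
def HTL_stmt : Prop :=
  ∀ (p : ℕ) (M : Ideal (integralClosure ℤ ℂ)), Setup p M → p ≠ 2 → ∀ (G : Type) [Group G] [Finite G]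
    (D : Subgroup G) (x : G) (θ χ : G → ℂ), Rt p M D x θ χ → ∀ n c h : ℕ, HL p M D θ n c h →
    ∀ ψ ∈ Blk M χ (⊤ : Subgroup G), ∀ a : ℕ, Nat.card D = p ^ a → ∀ k : ℤ, Defect p ⊤ ψ k →
    (a : ℤ) ≤ k + h

/-- **DVL** (block K-L). `R = O_p(G)` is not regular. -/
def DVL_stmt : Prop :=
  ∀ (p : ℕ) (M : Ideal (integralClosure ℤ ℂ)), Setup p M → ∀ (G : Type) [Group G] [Finite G]
    (D : Subgroup G) (x : G) (θ χ : G → ℂ), Rt p M D x θ χ → ∀ n c h : ℕ, HL p M D θ n c h →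
    (∀ ψ ∈ Blk M χ (⊤ : Subgroup G), ∀ a : ℕ, Nat.card D = p ^ a → ∀ k : ℤ, Defect p ⊤ ψ k →
      (a : ℤ) ≤ k + h) →
    ∀ R : Subgroup G, IsOp p (⊤ : Subgroup G) R → R ≤ D → ¬ RP M D θ R →
    ∃ m : ℤ, ∑ᶠ C ∈ {C : Finset (Subgroup G) | NCh p ⊤ R C},
      (-1 : ℂ) ^ (C.card + 1) * ((Nat.card (nrm C) : ℂ) * LL p M χ (nrm C)) =
        (p : ℂ) ^ c * (Nat.card G : ℂ) * m

/-- **TGL** (block IND-L; port of TG4). -/
def TGL_stmt : Prop :=
  ∀ (p : ℕ) (M : Ideal (integralClosure ℤ ℂ)), Setup p M → ∀ (G : Type) [Group G] [Finite G]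
    (D : Subgroup G) (x : G) (θ χ : G → ℂ), Rt p M D x θ χ → ∀ n c h : ℕ, HL p M D θ n c h →
    ∀ R : Subgroup G, IsOp p (⊤ : Subgroup G) R → R ≤ D → R ≠ D →
    (∀ (G' : Type) [Group G'] [Finite G'], Nat.card G' < Nat.card G → ∀ (D' : Subgroup G') (x' : G')
      (θ' χ' : G' → ℂ), Rt p M D' x' θ' χ' → HL p M D' θ' n c h → LL p M χ' ⊤ = LL p M χ' (nz D')) →
    ∑ᶠ C ∈ {C : Finset (Subgroup G) | NCh p ⊤ R C},
      (-1 : ℂ) ^ (C.card + 1) * ((Nat.card (nrm C) : ℂ) * LL p M χ (nrm C)) =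
        (Nat.card G : ℂ) * (LL p M χ ⊤ - LL p M χ (nz D))

/-- **MNL** (block IND-L). `l(B) = l(B_N)`. -/
def MNL_stmt : Prop :=
  ∀ (p : ℕ) (M : Ideal (integralClosure ℤ ℂ)), Setup p M → p ≠ 2 → ∀ (G : Type) [Group G] [Finite G]
    (D : Subgroup G) (x : G) (θ χ : G → ℂ), Rt p M D x θ χ → ∀ n c h : ℕ, HL p M D θ n c h →
    LL p M χ ⊤ = LL p M χ (nz D)

/-- **HNL** (block IND-L; port of HN4; `h = 0`). All heights in the blocks of `N` are zero, `N` between `cz Q` and `nz Q`. -/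
def HNL_stmt : Prop :=
  ∀ (p : ℕ) (M : Ideal (integralClosure ℤ ℂ)), Setup p M → p ≠ 2 → ∀ (G : Type) [Group G] [Finite G]
    (D : Subgroup G) (x : G) (θ χ : G → ℂ), Rt p M D x θ χ → ∀ n c : ℕ, HL p M D θ n c 0 →
    ∀ Q N : Subgroup G, IsPGroup p Q → Q ≤ N → cz Q ≤ N → N ≤ nz Q →
    ∀ φ ∈ Blk M χ N, ∀ a : ℕ, Nat.card D = p ^ a → Defect p N φ a

/-- **AML** (block IND-L; port of AM4). `k(B) = k(B_N)`. -/
def AML_stmt : Prop :=
  ∀ (p : ℕ) (M : Ideal (integralClosure ℤ ℂ)), Setup p M → p ≠ 2 → ∀ (G : Type) [Group G] [Finite G]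
    (D : Subgroup G) (x : G) (θ χ : G → ℂ), Rt p M D x θ χ → ∀ n c h : ℕ, HL p M D θ n c h →
    (Blk M χ (⊤ : Subgroup G)).ncard = (Blk M χ (nz D)).ncard

/-- **FNL** (block IND-L). The sum over `d` of the alternating sums is zero. -/
def FNL_stmt : Prop :=
  ∀ (p : ℕ) (M : Ideal (integralClosure ℤ ℂ)), Setup p M → p ≠ 2 → ∀ (G : Type) [Group G] [Finite G]
    (D : Subgroup G) (x : G) (θ χ : G → ℂ), Rt p M D x θ χ → ∀ n c h : ℕ, HL p M D θ n c h → D ≠ ⊥ →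
    IsOp p (⊤ : Subgroup G) ⊥ → ∑ᶠ d : ℤ, altSum (trivE G) p M χ d ⊤ = 0

/-- **FDL** (block IND-L; port of FN4; `h = 0`). Dade's conjecture for `B`, all defects `d`. -/
def FDL_stmt : Prop :=
  ∀ (p : ℕ) (M : Ideal (integralClosure ℤ ℂ)), Setup p M → p ≠ 2 → ∀ (G : Type) [Group G] [Finite G]
    (D : Subgroup G) (x : G) (θ χ : G → ℂ), Rt p M D x θ χ → ∀ n c : ℕ, HL p M D θ n c 0 → D ≠ ⊥ →
    IsOp p (⊤ : Subgroup G) ⊥ → ∀ d : ℤ, altSum (trivE G) p M χ d ⊤ = 0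

end Pool.Agent.LE
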