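import Pool.Agent.helper70.LE.SpecN

/-!
# Row le:OM3 (MP_baa4d7_al): symmetry
-/

set_option autoImplicit false

namespace Pool.Agent.LE

open Pool.Agent.helper58.DC Pool.Agent.DI Pool.Agent.GR Pool.Agent.OB Pool.Agent.DR Pool.Agent.FI Pool.Agent.FI3 Pool.Agent.FI4

theorem OM3_cz_one {G : Type} [Group G] (L : Subgroup G) : Cz L 1 = L := by
  ext x
  rw [mem_Cz]
  simp

theorem OM3 (hREC : REC_stmt) (hKKF : KKF_stmt) (hHIB : HIB_stmt) (hNYT : NYT_stmt) : OM3_stmt := by
  intro p M hS G _ _ D x θ χ hL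
  have key : ∀ n : ℕ, ∀ Q ≤ D, RP M D θ Q → ∀ a ∈ TT M D θ, a ∈ nz Q → ∀ y ∈ TT M D θ, y ∈ nz Q →
      a * y * a⁻¹ * y⁻¹ ∈ cz D → Nat.card (cz Q) ≤ n →
      om p (cz Q) (eBl M (cz Q) θ) a y = (starRingEnd ℂ) (om p (cz Q) (eBl M (cz Q) θ) y a) := by
    intro n
    induction n with
    | zero =>
      intro Q _ _ a _ _ y _ _ _ hcard
      have : 0 < Nat.card (cz Q) := Nat.card_pos
      omega
    | succ n ih =>
      intro Q hQ hRP a ha haQ y hy hyQ hay hcard
      have hya : y * a * y⁻¹ * a⁻¹ ∈ cz D := by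
        have e1 : y * a * y⁻¹ * a⁻¹ = (a * y * a⁻¹ * y⁻¹)⁻¹ := by group
        rw [e1]
        exact (cz D).inv_mem hay
      obtain ⟨h1, h2, h3⟩ := hNYT p M hS G D x θ χ hL Q hQ a ha haQ
      have hrec := hREC p M hS G D x θ χ hL Q hQ hRP a ha haQ y hy hyQ hay
      have hrec' := hREC p M hS G D x θ χ hL Q hQ hRP y hy hyQ a ha haQ hya
      have hHI := (hHIB p M hS G (cz Q) θ).1
      have h7 := (hKKF G (cz Q) a h1.nor).2.2.2.2.2.2 (eBl M (cz Q) θ) hHI.her y
      have hset : {u : G | u ∈ D ∧ y * u = u * y ∧ a * u = u * a} = {u : G | u ∈ D ∧ a * u = u * a ∧ y * u = u * y} := by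
        ext u
        constructor
        · rintro ⟨h4, h5, h6⟩
          exact ⟨h4, h6, h5⟩
        · rintro ⟨h4, h5, h6⟩
          exact ⟨h4, h6, h5⟩
      have hfin : {u : G | u ∈ D ∧ a * u = u * a ∧ y * u = u * y}.Finite := Set.toFinite _
      rw [hset] at hrec'
      rw [hrec, hrec', finsum_mem_eq_finite_toFinset_sum _ hfin, finsum_mem_eq_finite_toFinset_sum _ hfin, map_sum] at h7
      classical
      set S : Finset G := hfin.toFinset with hSdef
      have hmem : ∀ u ∈ S, u ∈ D ∧ a * u = u * a ∧ y * u = u * y := by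
        intro u hu
        exact hfin.mem_toFinset.1 hu
      have hterm : ∀ u ∈ S, om p (Cz (cz Q) u) (eBl M (Cz (cz Q) u) θ) a y -
          (starRingEnd ℂ) (om p (Cz (cz Q) u) (eBl M (Cz (cz Q) u) θ) y a) =
          if Cz (cz Q) u = cz Q then om p (cz Q) (eBl M (cz Q) θ) a y -
            (starRingEnd ℂ) (om p (cz Q) (eBl M (cz Q) θ) y a) else 0 := by
        intro u hu
        obtain ⟨huD, hau, hyu⟩ := hmem u hu
        by_cases hc : Cz (cz Q) u = cz Q
        · rw [if_pos hc, hc]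
        · rw [if_neg hc, ← cz_sup_zpowers, sub_eq_zero]
          have hQ' : Q ⊔ Subgroup.zpowers u ≤ D := by
            refine sup_le hQ ?_
            rw [Subgroup.zpowers_le]
            exact huD
          have hlt : Nat.card (cz (Q ⊔ Subgroup.zpowers u)) < Nat.card (cz Q) := by
            rw [cz_sup_zpowers]
            have hle : Cz (cz Q) u ≤ cz Q := fun z hz => (mem_Cz.1 hz).1
            by_contra hge
            apply hc
            exact Subgroup.eq_of_le_of_card_ge hle (not_lt.1 hge)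
          obtain ⟨-, h2', -⟩ := hNYT p M hS G D x θ χ hL Q hQ y hy hyQ
          exact ih (Q ⊔ Subgroup.zpowers u) hQ' (h3 hRP _ hQ' le_sup_left) a ha (h2 u huD hau).2 y hy (h2' u huD hyu).2 hay
            (by omega)
      have h1S : (1 : G) ∈ S := by
        rw [hSdef, hfin.mem_toFinset]
        exact ⟨D.one_mem, by simp⟩
      have hsum : ∑ u ∈ S, (if Cz (cz Q) u = cz Q then om p (cz Q) (eBl M (cz Q) θ) a y -
            (starRingEnd ℂ) (om p (cz Q) (eBl M (cz Q) θ) y a) else 0) = 0 := by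
        rw [← Finset.sum_congr rfl hterm, Finset.sum_sub_distrib, h7, sub_self]
      rw [← Finset.sum_filter, Finset.sum_const, nsmul_eq_mul] at hsum
      have hk : ((S.filter fun u => Cz (cz Q) u = cz Q).card : ℂ) ≠ 0 := by
        have : 0 < (S.filter fun u => Cz (cz Q) u = cz Q).card :=
          Finset.card_pos.2 ⟨1, Finset.mem_filter.2 ⟨h1S, OM3_cz_one _⟩⟩
        exact_mod_cast this.ne'
      exact sub_eq_zero.1 ((mul_eq_zero.1 hsum).resolve_left hk)
  intro Q hQ hRP a ha haQ y hy hyQ hay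
  exact key _ Q hQ hRP a ha haQ y hy hyQ hay le_rfl

end Pool.Agent.LE
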