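import Pool.Agent.helper59.FI4.AllP4

import Pool.Agent.helper44.LE.SEG
import Pool.Agent.helper53.LE.KKF
import Pool.Agent.helper20.LE.KKR
import Pool.Agent.helper16.LE.NS1
import Pool.Agent.helper3.LE.NS2
import Pool.Agent.helper10.LE.RK1
import Pool.Agent.helper9.LE.OMR
import Pool.Agent.helper39.LE.OMP
import Pool.Agent.helper40.LE.HIB
import Pool.Agent.helper18.LE.NYT
import Pool.Agent.helper28.LE.STA
import Pool.Agent.helper92.LE.EUX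
import Pool.Agent.helper26.LE.PPL
import Pool.Agent.helper75.LE.SCU
import Pool.Agent.helper20.LE.TRM
import Pool.Agent.helper7.LE.REC
import Pool.Agent.helper71.LE.SCT
import Pool.Agent.helper8.LE.FXC
import Pool.Agent.helper43.LE.OM1
import Pool.Agent.helper70.LE.OM3
import Pool.Agent.helper98.LE.EQP
import Pool.Agent.helper90.LE.RCN
import Pool.Agent.helper78.LE.EX1
import Pool.Agent.helper58.LE.EX2
import Pool.Agent.helper58.LE.MLC
import Pool.Agent.helper58.LE.MLA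
import Pool.Agent.helper83.LE.MLE
import Pool.Agent.helper53.LE.CYV
import Pool.Agent.helper21.LE.COP
import Pool.Agent.helper29.LE.OQS
import Pool.Agent.helper54.LE.OQD
import Pool.Agent.helper62.LE.ENS
import Pool.Agent.helper62.LE.LFN
import Pool.Agent.helper83.LE.LFM
import Pool.Agent.helper33.LE.NIL

/-!
# Project LE, block NIL: all statements without hypotheses (helper70)

`nNIL : NIL_stmt` is the output.
-/

set_option autoImplicit false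

namespace Pool.Agent.LE.AllN

open Pool.Agent Pool.Agent.helper58.DC Pool.Agent.DI Pool.Agent.GR Pool.Agent.OB Pool.Agent.DR Pool.Agent.FI Pool.Agent.FI3 Pool.Agent.FI4 Pool.Agent.LE

theorem nSEG : SEG_stmt := LE.SEG AllR.rRGM AllR.rZEA
theorem nKKF : KKF_stmt := LE.KKF 
theorem nKKR : KKR_stmt := LE.KKR nSEG nKKF
theorem nNS1 : NS1_stmt := LE.NS1 
theorem nNS2 : NS2_stmt := LE.NS2 nKKF nKKR
theorem nRK1 : RK1_stmt := LE.RK1 
theorem nOMR : OMR_stmt := LE.OMR nRK1 nKKF nKKR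
theorem nOMP : OMP_stmt := LE.OMP nOMR nKKF
theorem nHIB : HIB_stmt := LE.HIB AllA.dBLE GR.All.dIDM GR.All.dEXP GR.All.dCVF GR.All.dCCI AllA.dSTC AllC.cFEQ
theorem nNYT : NYT_stmt := LE.NYT AllP4.pFRA4 nHIB
theorem nSTA : STA_stmt := LE.STA AllP4.pFRA4
theorem nEUX : EUX_stmt := LE.EUX AllP4.pQWTr AllP4.pFRA4 AllC.cFSI AllC.cFEQ GR.All.dIDM
theorem nPPL : PPL_stmt := LE.PPL 
theorem nSCU : SCU_stmt := LE.SCU nSEG nHIB nNYT AllC.cFBC GR.All.dIDM GR.All.dEIN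
theorem nTRM : TRM_stmt := LE.TRM nSTA nHIB nNS1 nNS2 nKKF nNYT
theorem nREC : REC_stmt := LE.REC GR.All.dPPT nPPL nSCU nEUX nTRM
theorem nSCT : SCT_stmt := LE.SCT GR.All.dIDM GR.All.dB2 AllC.cFEQ
theorem nFXC : FXC_stmt := LE.FXC AllP4.pGOA AllP4.pDOR4 AllP4.pDDT4 AllP4.pFRA4
theorem nOM1 : OM1_stmt := LE.OM1 nREC nSCT nFXC nNYT
theorem nOM3 : OM3_stmt := LE.OM3 nREC nKKF nHIB nNYT
theorem nEQP : EQP_stmt := LE.EQP AllA.dBLE AllA.dMLT AllA.dEXB AllA.dSBI GR.All.dCVF GR.All.dCCI GR.All.dIDM GR.All.dNIL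
theorem nRCN : RCN_stmt := LE.RCN AllC.cFEQ AllC.cFSI AllA.dTPR AllA.dEXB
theorem nEX1 : EX1_stmt := LE.EX1 nOM1 nKKF nHIB
theorem nEX2 : EX2_stmt := LE.EX2 nEQP nRCN nSTA nNS1 nHIB AllA.dCFX AllA.dSYL AllA.dBLE AllC.cFEQ
theorem nMLC : MLC_stmt := LE.MLC AllA.dORP AllA.dCFX nEQP GR.All.dCVF AllA.dBLE
theorem nMLA : MLA_stmt := LE.MLA nMLC nEX1 nEX2 nHIB AllP4.pFRA4 nNYT GR.All.dCVF GR.All.dCCI GR.All.dIDM GR.All.dEXP AllA.dCFX AllA.dSYL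
theorem nMLE : MLE_stmt := LE.MLE nMLA nOM1 nOMR nKKF nKKR nHIB nNYT
theorem nCYV : CYV_stmt := LE.CYV 
theorem nCOP : COP_stmt := LE.COP 
theorem nOQS : OQS_stmt := LE.OQS nMLE nCOP nNYT nOM1 nOM3 nOMP nHIB
theorem nOQD : OQD_stmt := LE.OQD nOQS nCYV nNYT
theorem nENS : ENS_stmt := LE.ENS GR.All.dIDM GR.All.dEXP GR.All.dCVF Pool.Agent.DR.All.rCFA Pool.Agent.DR.All.rCCJ AllC.cFOV AllC.cFEQ AllC.cFSI GR.All.dB2
theorem nLFN : LFN_stmt := LE.LFN nENS GR.All.dIDM GR.All.dBCL GR.All.dB2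
theorem nLFM : LFM_stmt := LE.LFM nLFN nHIB nNS1 nNS2 nKKF AllP4.pFRA4 nNYT AllA.dEXB
theorem nNIL : NIL_stmt := LE.NIL nLFM nOQD AllP4.pLOA nNYT AllC.cFEQ AllA.dTTF

end Pool.Agent.LE.AllN
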