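import Mathlib
import Pool.Agent.helper70.LE.Defs
import Pool.Agent.helper59.FI4.SpecP4
import Pool.Agent.helper1.FI.SpecQ2
import Pool.Agent.helper83.FI.SpecR
import Pool.Agent.helper22.FI.SpecA
import Pool.Agent.helper59.FI.SpecB2
import Pool.Agent.helper58.FI.SpecC

/-!
# Project LE (MP_baa4d7_al), block NIL: a normal subgroup `R ≤ D` with `C_I(R) = 1`

OUTPUT: `NIL_stmt` of `helper70/LE/Defs`. NO hypothesis on the inertial quotient.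

RULES. File `Pool/Agent/<seat>/LE/XXX.lean` (directory LE) with

  import Pool.Agent.helper70.LE.SpecN
  set_option autoImplicit false
  namespace Pool.Agent.LE
  open Pool.Agent.helper58.DC Pool.Agent.DI Pool.Agent.GR Pool.Agent.OB Pool.Agent.DR Pool.Agent.FI Pool.Agent.FI3 Pool.Agent.FI4
  theorem XXX (hYYY : YYY_stmt) ... : XXX_stmt := ...
  end Pool.Agent.LE

auxiliary lemmas prefixed `XXX_`, no sorry, no double quotes in the file, no `convert`, no `congr!`. The rows named in the docstring are hypotheses; all rows of the older specs may be added as further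
hypotheses (no circles; all are proved): `helper59/FI4/SpecP4` (`FRA4 DOR4 DDT4 QWTr GOA ..`), `helper83/FI/SpecR` (`RGM ZEA BRQ RPY ..`), `helper22/FI/SpecA` (`ORP CFX BQA MLT BLE EQY EXB STC ..`),
`helper59/FI/SpecB2`, `helper58/FI/SpecC` (`FEQ FSI FOV ..`), `helper1/FI/SpecQ2`, GR (`CVF EXP IDM NIL PPT ..`), DR (`CFA CCJ ..`), DI (`B2 ..`). Ready lemmas: `helper59/FI/Base` (`cz_sup_zpowers TRNb SB_conj mem_Cz cz_mono ..`).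

NOTATION. `C = cz D`, `T = TT M D θ`, `L = cz Q`, `R ≤ Q ≤ D`, `RP M D θ Q` (so `T ⊓ L = C`, FRA4), `eBl M K θ = eS K (Bl M K θ)` the idempotent of the block `b(θ)^K`. The coset of `a` is
`{x | a⁻¹ * x ∈ L}`; for `a ∈ nz L` it is `a L = L a`. `[x, z] = x z x⁻¹ z⁻¹`. `om p L e a y = |L|⁻¹ ∑ e [x, z]` over the `p`-regular `x ∈ a L` and all `z ∈ y L`, `ta L e a y` the same over all `x ∈ a L`.
-/

set_option autoImplicit false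

namespace Pool.Agent.LE

open Pool.Agent.helper58.DC Pool.Agent.DI Pool.Agent.GR Pool.Agent.OB Pool.Agent.DR Pool.Agent.FI Pool.Agent.FI3 Pool.Agent.FI4

section

variable {G : Type} [Group G]

/-- `∑ e (x l x'⁻¹ l⁻¹)`, the sum over `l ∈ L` -/
noncomputable def KK (L : Subgroup G) (e : G → ℂ) (x x' : G) : ℂ :=
  ∑ᶠ l ∈ (L : Set G), e (x * l * x'⁻¹ * l⁻¹)

/-- `|L|⁻¹ ∑ e [x, z]`, over the `p`-regular `x ∈ a L` and the `z ∈ y L` -/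
noncomputable def om (p : ℕ) (L : Subgroup G) (e : G → ℂ) (a y : G) : ℂ :=
  (∑ᶠ x ∈ {x : G | a⁻¹ * x ∈ L ∧ PReg p x}, ∑ᶠ z ∈ {z : G | y⁻¹ * z ∈ L}, e (x * z * x⁻¹ * z⁻¹)) /
    Nat.card L

/-- `|L|⁻¹ ∑ e [x, z]`, over the `x ∈ a L` and the `z ∈ y L` -/
noncomputable def ta (L : Subgroup G) (e : G → ℂ) (a y : G) : ℂ :=
  (∑ᶠ x ∈ {x : G | a⁻¹ * x ∈ L}, ∑ᶠ z ∈ {z : G | y⁻¹ * z ∈ L}, e (x * z * x⁻¹ * z⁻¹)) / Nat.card L

/-- `e` is an idempotent of the group algebra of `L` with values in the local ring, a class function of `L` and hermitian. -/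
structure HI (M : Ideal (integralClosure ℤ ℂ)) (L : Subgroup G) (e : G → ℂ) : Prop where
  idm : Idm M L e
  cls : ∀ l ∈ L, ∀ x, e (l * x * l⁻¹) = e x
  her : ∀ x, e x⁻¹ = (starRingEnd ℂ) (e x)

/-- `y` normalises `L` and `e`. -/
structure NY (L : Subgroup G) (e : G → ℂ) (y : G) : Prop where
  nor : y ∈ nz L
  inv : ∀ x, e (y * x * y⁻¹) = e x

/-- The matrix `|L|⁻¹ KK` on the `p`-regular elements of `a L` is `F F^*` -/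
def RK (p : ℕ) (L : Subgroup G) (e : G → ℂ) (a : G) (F : G → ℂ) : Prop :=
  (∀ x x', a⁻¹ * x ∈ L → PReg p x → a⁻¹ * x' ∈ L → PReg p x' →
    KK L e x x' = (Nat.card L : ℂ) * (F x * (starRingEnd ℂ) (F x'))) ∧
  (∃ x, a⁻¹ * x ∈ L ∧ PReg p x ∧ F x ≠ 0) ∧
  ∀ y, NY L e y → a⁻¹ * (y * a * y⁻¹) ∈ L → om p L e a y * (starRingEnd ℂ) (om p L e a y) = 1 ∧
    ∀ x, a⁻¹ * x ∈ L → PReg p x → F (y * x * y⁻¹) = (starRingEnd ℂ) (om p L e a y) * F x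

end

/-! ## 1. Rigidity and the functions `KK` -/

/-- **SEG** (medium; from RGM, ZEA; compare RGK, `Pool/Agent/*/FIB/RGK.lean` or `*/FI/RGK.lean`, and KYG). RGM for the type `Z = {z // y⁻¹ * z ∈ L}` (`= y L = L y`), `x = u v`, `x' = u' v'`, `π z = x z x'⁻¹` (a permutation of the finite type `Z` by the hypothesis), `ε z w = e (w z⁻¹)`,
`ε' z w = f (w z⁻¹)` if `u z = z u'` and `u w = w u'`, `0` otherwise, `n₀ = orderOf v * orderOf v'`. Idempotent: `∑_t e (t z⁻¹) e (w t⁻¹)`, put `s = w t⁻¹` (a bijection of `Z` onto `L`, `y ∈ nz L`): `cv e e (w z⁻¹)`. For `ε'`, `z`, `w` with the condition: `s = w t⁻¹` runs over `Cz L u` (`u w t⁻¹ = w u' t⁻¹ = w t⁻¹ u`);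
if `z` or `w` does not satisfy the condition both sides are `0`. Invariance: `(π w) (π z)⁻¹ = x (w z⁻¹) x⁻¹`, and `u (π z) = (π z) u'` iff `u z = z u'` (`x` commutes with `u`, `x'` with `u'`). `π ^ k z = x^k z x'^(-k)`; `π ^ (p^n n₀) = 1` for `u ^ p^n = u' ^ p^n = 1`; `π ^ n₀ z = z` gives `u^n₀ z = z u'^n₀`, hence `u z = z u'`
(`p ∤ n₀`); then `w z⁻¹ ∈ Cz L u` and `e - f` is `InM` there. So `∑_z ε z (π z) - ∑_z ε' z (π z)` is `Small r` for all `r`, so `0` (ZEA). `ε z (π z) = e (x z x'⁻¹ z⁻¹)`. -/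
def SEG_stmt : Prop :=
  ∀ (p : ℕ) (M : Ideal (integralClosure ℤ ℂ)), Setup p M → ∀ (G : Type) [Group G] [Finite G]
    (L : Subgroup G) (e f : G → ℂ) (u v u' v' y : G), PEl p u → PEl p u' → PReg p v → PReg p v' →
    Commute u v → Commute u' v' → Idm M L e → Idm M (Cz L u) f →
    (∀ t, e ((u * v) * t * (u * v)⁻¹) = e t) → (∀ t, f ((u * v) * t * (u * v)⁻¹) = f t) →
    (∀ t ∈ Cz L u, InM M (e t - f t)) → y ∈ nz L →
    (∀ z, y⁻¹ * z ∈ L → y⁻¹ * ((u * v) * z * (u' * v')⁻¹) ∈ L) →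
    ∑ᶠ z ∈ {z : G | y⁻¹ * z ∈ L}, e ((u * v) * z * (u' * v')⁻¹ * z⁻¹) =
      ∑ᶠ z ∈ {z : G | y⁻¹ * z ∈ L ∧ u * z = z * u'}, f ((u * v) * z * (u' * v')⁻¹ * z⁻¹)

/-- **KKF** (medium; only Mathlib). Facts on `KK`, all by direct computation. Let `x`, `x'`, `x''` be in `a L` (stable under conjugation by `L`; `x x'⁻¹ ∈ L`). (1) `f (x' l' x''⁻¹ l'⁻¹) = f (l x' l⁻¹ (l l') x''⁻¹ (l l')⁻¹)`; put `X = l x' l⁻¹ ∈ a L`, `l'' = l l'`: `∑_l ∑_X ∑_l'' e (x X⁻¹) f (X l'' x''⁻¹ l''⁻¹)`, and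
`∑_{X ∈ aL} e (x X⁻¹) f (X g) = cv e f (x g)` (`t = x X⁻¹ ∈ L`). (2) `(x' l x⁻¹ l⁻¹)⁻¹ = l x l⁻¹ x'⁻¹`, conjugate by `l⁻¹`: `x l⁻¹ x'⁻¹ l`; replace `l` by `l⁻¹`. (3) `e (l₀ x l₀⁻¹ l x'⁻¹ l⁻¹) = e (x (l₀⁻¹ l) x'⁻¹ (l₀⁻¹ l)⁻¹)`. (4) replace `l` by `y l y⁻¹`. (5) `z ∈ y L = L y`, `z = l y`: `x l y x⁻¹ y⁻¹ l⁻¹`. (6) as (1):
`∑_{x'} ∑_l e (x l x'⁻¹ l⁻¹) g x' = ∑_l ∑_X e (x X⁻¹) g X`, `X = l x' l⁻¹`. (7) `[z, x] = [x, z]⁻¹`. -/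
def KKF_stmt : Prop :=
  ∀ (G : Type) [Group G] [Finite G] (L : Subgroup G) (a : G), a ∈ nz L →
    (∀ e f : G → ℂ, (∀ x, x ∉ L → e x = 0) → (∀ l ∈ L, ∀ x, f (l * x * l⁻¹) = f x) →
      ∀ x x'' : G, a⁻¹ * x ∈ L → a⁻¹ * x'' ∈ L →
      ∑ᶠ x' ∈ {x' : G | a⁻¹ * x' ∈ L}, KK L e x x' * KK L f x' x'' = (Nat.card L : ℂ) * KK L (cv e f) x x'') ∧
    (∀ e : G → ℂ, (∀ l ∈ L, ∀ x, e (l * x * l⁻¹) = e x) → (∀ x, e x⁻¹ = (starRingEnd ℂ) (e x)) →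
      ∀ x x' : G, KK L e x' x = (starRingEnd ℂ) (KK L e x x')) ∧
    (∀ e : G → ℂ, (∀ l ∈ L, ∀ x, e (l * x * l⁻¹) = e x) → ∀ l ∈ L, ∀ x x' : G,
      KK L e (l * x * l⁻¹) x' = KK L e x x' ∧ KK L e x (l * x' * l⁻¹) = KK L e x x') ∧
    (∀ (e : G → ℂ) (y : G), y ∈ nz L → ∀ x x' : G,
      KK L e (y * x * y⁻¹) (y * x' * y⁻¹) = KK L (fun t => e (y * t * y⁻¹)) x x') ∧
    (∀ (p : ℕ) (e : G → ℂ) (y : G), y ∈ nz L →
      om p L e a y = (∑ᶠ x ∈ {x : G | a⁻¹ * x ∈ L ∧ PReg p x}, KK L e x (y * x * y⁻¹)) / Nat.card L ∧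
      ta L e a y = (∑ᶠ x ∈ {x : G | a⁻¹ * x ∈ L}, KK L e x (y * x * y⁻¹)) / Nat.card L) ∧
    (∀ e g : G → ℂ, (∀ x, x ∉ L → e x = 0) → (∀ l ∈ L, ∀ x, g (l * x * l⁻¹) = g x) →
      (∀ x, a⁻¹ * x ∉ L → g x = 0) → ∀ x : G, a⁻¹ * x ∈ L →
      (Nat.card L : ℂ) * cv e g x = ∑ᶠ x' ∈ {x' : G | a⁻¹ * x' ∈ L}, KK L e x x' * g x') ∧
    (∀ e : G → ℂ, (∀ x, e x⁻¹ = (starRingEnd ℂ) (e x)) → ∀ y : G,
      ta L e a y = (starRingEnd ℂ) (ta L e y a))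

/-- **KKR** (short; from SEG, KKF). One of `x`, `x'` is `p`-regular and the other is not. Proof: SEG for `y = 1`: let `x` be `p`-regular, `u = 1`, `v = x`, `x' = u' v'` with the `p`-part `u' ≠ 1` and the `p`-regular part `v'` (powers of `x'`; PPT-type decomposition), `f = e` (`Cz L 1 = L`); the second sum is empty as `1 * z = z * u'`
is impossible. `x z x'⁻¹ ∈ L` for `z ∈ L`: `x L x'⁻¹ = x x'⁻¹ L` (`x' ∈ nz L`). `e` is invariant under `x ∈ a L`. The case `x'` `p`-regular, `x` not: KKF (2). -/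
def KKR_stmt : Prop :=
  ∀ (p : ℕ) (M : Ideal (integralClosure ℤ ℂ)), Setup p M → ∀ (G : Type) [Group G] [Finite G]
    (L : Subgroup G) (e : G → ℂ) (a : G), HI M L e → NY L e a → ∀ x x' : G, a⁻¹ * x ∈ L → a⁻¹ * x' ∈ L →
    (PReg p x ↔ ¬ PReg p x') → KK L e x x' = 0

/-- **NS1** (short to medium; only Mathlib). `e` is not stable under `x`. Proof: `e = cv e e`, so `KK L e x x' = ∑_{l ∈ L} ∑_{t ∈ L} e t * e (t⁻¹ x l x'⁻¹ l⁻¹)`. For fixed `t` put `l = (x⁻¹ t x) m` (`x ∈ nz L`): `t⁻¹ x l x'⁻¹ l⁻¹ = g (x⁻¹ t⁻¹ x)` with `g = x m x'⁻¹ m⁻¹`, and with `e' s = e (x⁻¹ s x)`, a class function of `L`: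
`e (g x⁻¹ t⁻¹ x) = e' (x g x⁻¹ t⁻¹) = e' (t⁻¹ (x g x⁻¹))`. So it is `∑_m cv e e' (x g x⁻¹) = 0`. -/
def NS1_stmt : Prop :=
  ∀ (G : Type) [Group G] [Finite G] (L : Subgroup G) (e : G → ℂ), (∀ x, x ∉ L → e x = 0) → cv e e = e →
    (∀ l ∈ L, ∀ x, e (l * x * l⁻¹) = e x) → ∀ x ∈ nz L, cv e (fun t => e (x⁻¹ * t * x)) = 0 →
    ∀ x' : G, KK L e x x' = 0

/-- **NS2** (medium; from KKF, KKR). `e` is stable under `a` and not under `y`. Proof: `Ω` the set of the `p`-regular elements of `a L`, `e' t = e (y t y⁻¹)`. KKF (5): `|L| om = ∑_{x ∈ Ω} KK e x (y x y⁻¹)`. By KKF (1) (`cv e e = e`) and KKR `|L| KK e x x'' = ∑_{x' ∈ Ω} KK e x x' * KK e x' x''` for `x ∈ Ω`. So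
`|L|² om = ∑_{x' ∈ Ω} ∑_{x ∈ Ω} KK e x' (y x y⁻¹) * KK e x x'`. `KK e x' (y x y⁻¹) = KK e' (y⁻¹ x' y) x` (KKF (4)). By KKR the sum over `x ∈ Ω` can be taken over all `x ∈ a L` (`x'` is `p`-regular), and by KKF (1) it is `|L| KK (cv e' e) (y⁻¹ x' y) x' = 0` (`y⁻¹ x' y ∈ a L` by the hypothesis on `y`). -/
def NS2_stmt : Prop :=
  ∀ (p : ℕ) (M : Ideal (integralClosure ℤ ℂ)), Setup p M → ∀ (G : Type) [Group G] [Finite G]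
    (L : Subgroup G) (e : G → ℂ) (a y : G), HI M L e → NY L e a → y ∈ nz L → a⁻¹ * (y * a * y⁻¹) ∈ L →
    cv (fun t => e (y * t * y⁻¹)) e = 0 → om p L e a y = 0

/-- **RK1** (short to medium; pure). A hermitian idempotent matrix of trace one. Proof: `∑_{x'} |P x x'|² = P x x` (idempotent, hermitian), so `P x x` is real and `≥ 0`, and some `c = P x₀ x₀ > 0` (trace `1`). Let `F x = P x x₀ / √c`: `∑ |F|² = 1`, `∑_{x'} P x x' * F x' = F x`. `Q x x' = P x x' - F x * conj (F x')` is hermitian, idempotent, of trace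
`0`; so `∑_{x, x'} |Q x x'|² = ∑_x Q x x = 0` and `Q = 0`. -/
def RK1_stmt : Prop :=
  ∀ (Ω : Type) [Fintype Ω] (P : Ω → Ω → ℂ), (∀ x x', P x' x = (starRingEnd ℂ) (P x x')) →
    (∀ x x'', ∑ x', P x x' * P x' x'' = P x x'') → ∑ x, P x x = 1 →
    ∃ F : Ω → ℂ, (∀ x x', P x x' = F x * (starRingEnd ℂ) (F x')) ∧ ∑ x, F x * (starRingEnd ℂ) (F x) = 1

/-- **OMR** (medium; from RK1, KKF, KKR). Proof: `Ω` the type of the `p`-regular elements of `a L`, `P x x' = KK L e x x' / |L|`: hermitian (KKF (2)), idempotent (KKF (1), `cv e e = e`, KKR: the terms with `x'` not `p`-regular vanish), trace `om p L e a 1 = 1` (KKF (5)). RK1: `F`, extended by `0`. Some `F x ≠ 0` as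
`∑ |F|² = 1`. Let `NY L e y`, `a⁻¹ (y a y⁻¹) ∈ L`: `x ↦ y x y⁻¹` is a permutation of `Ω`, and `P (y x y⁻¹) (y x' y⁻¹) = P x x'` (KKF (4)). So `F (y x y⁻¹) * conj (F (y x' y⁻¹)) = F x * conj (F x')`. Fix `x'` with `F x' ≠ 0`; `x' = x` gives `|F (y x' y⁻¹)| = |F x'|`, and `F (y x y⁻¹) = k * F x` with
`k = conj (F x') / conj (F (y x' y⁻¹))`, `|k| = 1`. `om p L e a y = ∑_x P x (y x y⁻¹) = ∑_x F x * conj (k * F x) = conj k` (KKF (5)). -/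
def OMR_stmt : Prop :=
  ∀ (p : ℕ) (M : Ideal (integralClosure ℤ ℂ)), Setup p M → ∀ (G : Type) [Group G] [Finite G]
    (L : Subgroup G) (e : G → ℂ) (a : G), HI M L e → NY L e a → om p L e a 1 = 1 →
    ∃ F : G → ℂ, RK p L e a F

/-- **OMP** (short to medium; from OMR, KKF). Properties of `om`. (1) From RK: `F (y y' x (y y')⁻¹)` in two ways, at an `x` with `F x ≠ 0` (`a⁻¹ (y x y⁻¹) ∈ L`, `p`-regular). (2) `z ∈ a L`, write `z = x l`, `l ∈ L`: `x z x⁻¹ z⁻¹ = x (x l x⁻¹ l⁻¹) x⁻¹` and `e` is invariant under `x ∈ a L` (`NY L e a`, `cls`): so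
`om p L e a a = om p L e a 1`. (3) the sets in the definition are the same. (4) from RK. -/
def OMP_stmt : Prop :=
  ∀ (p : ℕ) (M : Ideal (integralClosure ℤ ℂ)), Setup p M → ∀ (G : Type) [Group G] [Finite G]
    (L : Subgroup G) (e : G → ℂ) (a : G), HI M L e → NY L e a → om p L e a 1 = 1 →
    (∀ y y', NY L e y → NY L e y' → a⁻¹ * (y * a * y⁻¹) ∈ L → a⁻¹ * (y' * a * y'⁻¹) ∈ L →
      om p L e a (y * y') = om p L e a y * om p L e a y') ∧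
    om p L e a a = 1 ∧
    (∀ y, ∀ l ∈ L, ∀ l' ∈ L, om p L e (a * l) (y * l') = om p L e a y) ∧
    ∀ y, NY L e y → a⁻¹ * (y * a * y⁻¹) ∈ L → om p L e a y * (starRingEnd ℂ) (om p L e a y) = 1

/-! ## 2. Block idempotents -/

/-- **HIB** (medium; from BLE, IDM, EXP, CVF, CCI, STC, FEQ). Block idempotents `e = eBl M K θ`. (1) `HI`: BLE for `K = L` (`Bq M K K θ = Bl M K θ`), IDM; hermitian: `ψ 1` is a natural number and `ψ x⁻¹ = conj (ψ x)` (STC). (2) `g ∈ nz K`, `ψ`, `cjF g ψ ∈ Bl M K θ`: by FEQ and `SB.trans` `cjF g` maps `Bl M K θ` into itself, injectively, so onto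
(finite); `e (g x g⁻¹) = (∑ ψ 1 * ψ (g x⁻¹ g⁻¹)) / |K|` and `ψ (g x⁻¹ g⁻¹) = (cjF g⁻¹ ψ) x⁻¹`. (3) otherwise `cjF g` and `cjF g⁻¹` map `Bl M K θ` into sets disjoint from it; `x ↦ e (g x g⁻¹)` is `eS K (cjF g⁻¹ '' Bl M K θ)`, and for disjoint `S`, `S' ⊆ IrrOn K` `cv (eS K S) (eS K S') = 0` (CCI (2), IDM: all `cc ψ` vanish; EXP). -/
def HIB_stmt : Prop :=
  ∀ (p : ℕ) (M : Ideal (integralClosure ℤ ℂ)), Setup p M → ∀ (G : Type) [Group G] [Finite G]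
    (K : Subgroup G) (θ : G → ℂ), HI M K (eBl M K θ) ∧
    (∀ g ∈ nz K, (∃ ψ ∈ Bl M K θ, cjF g ψ ∈ Bl M K θ) → NY K (eBl M K θ) g) ∧
    ∀ g ∈ nz K, (¬ ∃ ψ ∈ Bl M K θ, cjF g ψ ∈ Bl M K θ) →
      cv (eBl M K θ) (fun t => eBl M K θ (g⁻¹ * t * g)) = 0 ∧
      cv (fun t => eBl M K θ (g * t * g⁻¹)) (eBl M K θ) = 0

/-- **NYT** (short to medium; from FRA4, HIB). Proof: `t` normalises `L = cz Q` (`t ∈ nz Q`). (1) `Bl M (cz Q) θ` is not empty or the idempotent is `0` (then clear); FRA4 (3) and HIB (2). (2) `Q' = Q ⊔ zpowers u ≤ D`, `cz Q' = Cz (cz Q) u` (`cz_sup_zpowers`); `t ∈ nz Q'` as `t` commutes with `u`; (1) for `Q'`. (3) `T ⊓ cz Q' ≤ T ⊓ cz Q`. -/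
def NYT_stmt : Prop :=
  ∀ (p : ℕ) (M : Ideal (integralClosure ℤ ℂ)), Setup p M → ∀ (G : Type) [Group G] [Finite G]
    (D : Subgroup G) (x : G) (θ χ : G → ℂ), LoA p M D x θ χ → ∀ Q ≤ D, ∀ t ∈ TT M D θ, t ∈ nz Q →
    NY (cz Q) (eBl M (cz Q) θ) t ∧
    (∀ u ∈ D, t * u = u * t → NY (Cz (cz Q) u) (eBl M (Cz (cz Q) u) θ) t ∧ t ∈ nz (Q ⊔ Subgroup.zpowers u)) ∧
    (RP M D θ Q → ∀ Q' ≤ D, Q ≤ Q' → RP M D θ Q')

/-- **STA** (short to medium; from FRA4). Proof: `L = cz Q`, `Q' = Q ⊔ P' ≤ D`, `cz Q' = cz Q ⊓ cz P'`. `x ∈ a L` normalises `Q` (`a ∈ nz Q`, `L ≤ nz Q`) and commutes with `P'`, so `x ∈ nz Q'`. FRA4 (2) for `P = Q'`, `n = x`: `k ∈ cz Q'` with `t = k x ∈ T`. `a⁻¹ t = (a⁻¹ k a) (a⁻¹ x) ∈ L` (`a` normalises `L`), so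
`a⁻¹ t ∈ T ⊓ L = C` (FRA4 (1), `RP`). For `u ∈ P' ≤ D`: `t u t⁻¹ = k x u x⁻¹ k⁻¹ = u` and `t = a c`, `c ∈ cz D`: `a u a⁻¹ = u`. -/
def STA_stmt : Prop :=
  ∀ (p : ℕ) (M : Ideal (integralClosure ℤ ℂ)), Setup p M → ∀ (G : Type) [Group G] [Finite G]
    (D : Subgroup G) (x : G) (θ χ : G → ℂ), LoA p M D x θ χ → ∀ Q ≤ D, RP M D θ Q → ∀ a ∈ TT M D θ,
    a ∈ nz Q → ∀ P' ≤ D, ∀ w : G, a⁻¹ * w ∈ cz Q → (∀ u ∈ P', w * u = u * w) →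
    (∃ ψ ∈ Bl M (cz Q ⊓ cz P') θ, cjF w ψ ∈ Bl M (cz Q ⊓ cz P') θ) → ∀ u ∈ P', a * u = u * a

/-- **EUX** (medium; from QWTr, FRA4, FSI, FEQ, IDM). The idempotent of all blocks of `Cz L u` over `b(θ)^L`, `L = cz Q`. Proof: `K = Cz L u`. For `q = (l, u₀)` in the index set `cjS l (Cz L u₀) = K` and `eBl M (Cz L u₀) θ (l⁻¹ x l) = eS K {η ∈ IrrOn K | SB M K (cjF l θ) η} x` (`ψ ↦ cjF l ψ` is a bijection from
`Bl M (Cz L u₀) θ`; FEQ). Exchange the sums: the right side is `∑_{η ∈ IrrOn K} (η 1 * η x⁻¹ / |K|) * #{q | .. ∧ SB M K (cjF l θ) η}`. If the set is not empty then `SB M L η θ` (FSI (1); `SB M L (cjF l θ) θ` as `l ∈ L`), so `η ∈ BlC M L θ u`; and for `η ∈ BlC` the number is `iL M D L θ * |K| = |K|` for `u ≠ 1` (QWTr; `iL = 1` by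
FRA4, `T ⊓ L = C`). For `u = 1`: `K = L`, `q = (l, 1)`, and `eBl M L θ (l⁻¹ x l) = eBl M L θ x`, `BlC M L θ 1 = Bl M L θ`, `Cz L 1 = L`. -/
def EUX_stmt : Prop :=
  ∀ (p : ℕ) (M : Ideal (integralClosure ℤ ℂ)), Setup p M → ∀ (G : Type) [Group G] [Finite G]
    (D : Subgroup G) (x : G) (θ χ : G → ℂ), LoA p M D x θ χ → ∀ Q ≤ D, RP M D θ Q → ∀ u ∈ cz Q,
    PEl p u → ∀ t : G, (Nat.card (Cz (cz Q) u) : ℂ) * eS (Cz (cz Q) u) (BlC M (cz Q) θ u) t =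
      ∑ᶠ q ∈ {q : G × G | q.1 ∈ cz Q ∧ q.2 ∈ D ∧ q.1 * q.2 * q.1⁻¹ = u},
        eBl M (Cz (cz Q) q.2) θ (q.1⁻¹ * t * q.1)

/-- **PPL** (short; pure). The `p`-part of an element of `a L`. Proof: `N = C.relIndex T` (`C = cz D` is normal in `T`) is prime to `p` (`LoA.bet`), `a ^ N ∈ C ≤ L`, so `(u v) ^ N ∈ L` (`a` normalises `L`: `(a l) ^ N ∈ a ^ N L`). `u` is a power of `u v` and `u ^ N` is in the group generated by `(u v) ^ N` (`(u v)^N = u^N v^N`,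
commuting, of coprime orders), so `u ^ N ∈ L`, and `u` is a power of `u ^ N`. -/
def PPL_stmt : Prop :=
  ∀ (p : ℕ) (M : Ideal (integralClosure ℤ ℂ)), Setup p M → ∀ (G : Type) [Group G] [Finite G]
    (D : Subgroup G) (x : G) (θ χ : G → ℂ), LoA p M D x θ χ → ∀ Q ≤ D, ∀ a ∈ TT M D θ,
    a ∈ nz Q → ∀ u v : G, PEl p u → PReg p v → Commute u v → a⁻¹ * (u * v) ∈ cz Q →
    u ∈ cz Q ∧ a⁻¹ * v ∈ cz Q

/-- **SCU** (medium; from SEG, HIB, NYT, FBC, IDM, BLE). The section of `u` in `a L`. Proof: `e = eBl M L θ`, `K = Cz L u`, `f = eS K (BlC M L θ u)`: `Idm M L e` (HIB), `Idm M K f` (FBC: a union of blocks; IDM, EIN), `InM M (e t - f t)` for `t ∈ K` (`LoA.eqr`). `e` is invariant under `u v ∈ a L` (NYT: `NY L e a`). `f` is invariant under `w = u v`: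
`w ∈ nz K` (`w` commutes with `u`, `w ∈ nz L`), and `cjF w` maps `BlC M L θ u` into itself: for `η` in it `SB M L η θ`, `SB M (cjS w L) (cjF w η) (cjF w θ)`.. use: `cjF w ψ ∈ Bl M L θ` for `ψ ∈ Bl M L θ` (as `e` is invariant; or FRA4 (3) and inner conjugation), `SB M L η ψ` gives `SB M L (cjF w η) (cjF w ψ)`, so
`SB M L (cjF w η) θ`. If `Bl M L θ` is empty both idempotents are `0` (EXB: every `η` has a `ψ`). SEG for `u' = u`, `v' = v` (`u v z (u v)⁻¹ ∈ y L` for `z ∈ y L`: `[a, y] ∈ L`). For `z` commuting with `u`: `(u v) z (u v)⁻¹ z⁻¹ = v z v⁻¹ z⁻¹`. -/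
def SCU_stmt : Prop :=
  ∀ (p : ℕ) (M : Ideal (integralClosure ℤ ℂ)), Setup p M → ∀ (G : Type) [Group G] [Finite G]
    (D : Subgroup G) (x : G) (θ χ : G → ℂ), LoA p M D x θ χ → ∀ Q ≤ D, ∀ a ∈ TT M D θ, a ∈ nz Q →
    ∀ y ∈ TT M D θ, y ∈ nz Q → a * y * a⁻¹ * y⁻¹ ∈ cz D → ∀ u ∈ cz Q, PEl p u → ∀ v : G, PReg p v →
    Commute u v → a⁻¹ * v ∈ cz Q →
    ∑ᶠ z ∈ {z : G | y⁻¹ * z ∈ cz Q}, eBl M (cz Q) θ ((u * v) * z * (u * v)⁻¹ * z⁻¹) =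
      ∑ᶠ z ∈ {z : G | y⁻¹ * z ∈ cz Q ∧ u * z = z * u},
        eS (Cz (cz Q) u) (BlC M (cz Q) θ u) (v * z * v⁻¹ * z⁻¹)

/-- **TRM** (medium; from STA, HIB, NS1, NS2, KKF, NYT). One term. Let `K = Cz L u = cz Q ⊓ cz (zpowers u)`, `e = eBl M K θ`, `A = {v | a⁻¹ v ∈ L, v u = u v}`, `Y` the same for `y`. If `A` or `Y` is empty both sides are `0`: the right side because `a ∈ A` (`y ∈ Y`) if `a` (`y`) commutes with `u`. Otherwise fix `a' ∈ A`, `y' ∈ Y`: `A = a' K`, `Y = y' K`,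
`a', y' ∈ nz K`, `[a', y'] ∈ K` (it commutes with `u` and `[a, y] ∈ L`). The sum is `|K| om p K e a' y'`. CASE 1: no `ψ ∈ Bl M K θ` with `cjF a' ψ ∈ Bl M K θ`. For `v ∈ a' K` the sum over `z ∈ y' K` of `e [v, z]` is `KK K e v (y' v y'⁻¹)` (as in KKF (5)), zero by NS1 (HIB (3); the condition for `v` is that for `a'`: `K` acts trivially,
`cjF k ψ = ψ`). By STA (for `P' = zpowers u`) if `a` does not commute with `u` we are in case 1; so in case 1 either the indicator is `0` or `a` commutes with `u` and then `a' = a` can be chosen and NYT (2) with HIB contradicts unless `Bl M K θ` is empty (then `e = 0`, all is `0`). CASE 2: `cjF a' ψ ∈ Bl` for some `ψ`: `a` commutes with `u` (STA),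
take `a' = a`: `NY K e a` (HIB (2)). If no `ψ ∈ Bl M K θ` with `cjF y' ψ ∈ Bl M K θ` then `om = 0` by NS2 (HIB (3)), and `y` does not commute with `u` (otherwise `y' = y`, NYT). If there is one, `y` commutes with `u` by STA, take `y' = y`: both sides are `|K| om p K e a y`. -/
def TRM_stmt : Prop :=
  ∀ (p : ℕ) (M : Ideal (integralClosure ℤ ℂ)), Setup p M → ∀ (G : Type) [Group G] [Finite G]
    (D : Subgroup G) (x : G) (θ χ : G → ℂ), LoA p M D x θ χ → ∀ Q ≤ D, RP M D θ Q → ∀ a ∈ TT M D θ, a ∈ nz Q →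
    ∀ y ∈ TT M D θ, y ∈ nz Q → a * y * a⁻¹ * y⁻¹ ∈ cz D → ∀ u ∈ D,
    ((a * u = u * a ∧ y * u = u * y) →
      ∑ᶠ v ∈ {v : G | a⁻¹ * v ∈ cz Q ∧ v * u = u * v ∧ PReg p v}, ∑ᶠ z ∈ {z : G | y⁻¹ * z ∈ cz Q ∧ u * z = z * u},
        eBl M (Cz (cz Q) u) θ (v * z * v⁻¹ * z⁻¹) =
      (Nat.card (Cz (cz Q) u) : ℂ) * om p (Cz (cz Q) u) (eBl M (Cz (cz Q) u) θ) a y) ∧
    (¬ (a * u = u * a ∧ y * u = u * y) →
      ∑ᶠ v ∈ {v : G | a⁻¹ * v ∈ cz Q ∧ v * u = u * v ∧ PReg p v}, ∑ᶠ z ∈ {z : G | y⁻¹ * z ∈ cz Q ∧ u * z = z * u},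
        eBl M (Cz (cz Q) u) θ (v * z * v⁻¹ * z⁻¹) = 0)

/-- **REC** (medium; from PPT, PPL, SCU, EUX, TRM). THE RECURSION. Proof: `L = cz Q`. `|L| ta = ∑_{x ∈ aL} ∑_{z ∈ yL} e [x, z]`; PPT for `H = ⊤` (indicator of `a L`): the sum over the `p`-elements `u` and the `p`-regular `v` commuting with `u`, `u v ∈ a L`; PPL: `u ∈ L`, `v ∈ a L` (and conversely `u ∈ L`, `v ∈ a L` give `u v ∈ a L`). SCU: the inner sum is over the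
`z ∈ y L` commuting with `u` of `f_u [v, z]`, `f_u = eS (Cz L u) (BlC ..)`, and EUX: `f_u = |Cz L u|⁻¹ ∑_q eBl M (Cz L u₀) θ (l⁻¹ · l)`, `q = (l, u₀) ∈ L × D`, `l u₀ l⁻¹ = u`. Exchange: the sum over all `(l, u₀) ∈ L × D` (`u = l u₀ l⁻¹` is a `p`-element of `L`) of `|Cz L u₀|⁻¹ ∑_v ∑_z eBl M (Cz L u₀) θ [l⁻¹ v l, l⁻¹ z l]`,
`v ∈ a L`, `z ∈ y L` commuting with `u`; replace `v`, `z` by `l v l⁻¹`, `l z l⁻¹` (`a L`, `y L` are stable under conjugation by `L`): independent of `l`. So `|L| ta = |L| ∑_{u₀ ∈ D} |Cz L u₀|⁻¹ (the sum in TRM)`. TRM. -/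
def REC_stmt : Prop :=
  ∀ (p : ℕ) (M : Ideal (integralClosure ℤ ℂ)), Setup p M → ∀ (G : Type) [Group G] [Finite G]
    (D : Subgroup G) (x : G) (θ χ : G → ℂ), LoA p M D x θ χ → ∀ Q ≤ D, RP M D θ Q → ∀ a ∈ TT M D θ, a ∈ nz Q →
    ∀ y ∈ TT M D θ, y ∈ nz Q → a * y * a⁻¹ * y⁻¹ ∈ cz D →
    ta (cz Q) (eBl M (cz Q) θ) a y = ∑ᶠ u ∈ {u : G | u ∈ D ∧ a * u = u * a ∧ y * u = u * y},
      om p (Cz (cz Q) u) (eBl M (Cz (cz Q) u) θ) a y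

/-! ## 3. The value at `(a, 1)` and symmetry -/

/-- **SCT** (short to medium; from IDM, B2 of DI, STC, FEQ). The number of the stable characters. Proof: `z ∈ L`, `x = a l'`, `l' ∈ L`: `eS L S (a l' z l'⁻¹ a⁻¹ z⁻¹) = eS L S (l' z l'⁻¹ (a⁻¹ z a)⁻¹)` (invariance under `a`). The sum over `l'` is `Sf S z (a⁻¹ z a)` or `Sf S (z⁻¹) ..` by the last item of IDM (with `t = l'⁻¹`; use `Sf`-symmetry or STC), i.e.
`∑_{ψ ∈ S} ψ z * ψ (a⁻¹ z⁻¹ a)` up to complex conjugation; the sum over `z ∈ L` is `∑_ψ |L| [cjF a ψ = ψ]` (B2: orthogonality of `ψ` and `cjF a ψ ∈ IrrOn L`, FEQ). -/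
def SCT_stmt : Prop :=
  ∀ (G : Type) [Group G] [Finite G] (L : Subgroup G) (S : Set (G → ℂ)), S ⊆ IrrOn L → ∀ a : G, a ∈ nz L →
    (∀ t, eS L S (a * t * a⁻¹) = eS L S t) → ta L (eS L S) a 1 = ({ψ : G → ℂ | ψ ∈ S ∧ cjF a ψ = ψ}.ncard : ℂ)

/-- **FXC** (medium; from GOA, DOR4, DDT4, NYT, FRA4). The number of the `a`-stable characters of the block is the number of the fixed points of `a` on `D`. Proof: `L = cz Q`, `B = Bl M L θ`, `|B| = |D|` (GOA, `Good.card`). `U ψ u = dd M (Cz L u) θ ψ u`, `ψ ∈ B`, `u ∈ D`. All `b(θ)^(Cz L u)` are good (GOA for `Q ⊔ zpowers u`, `cz_sup_zpowers`, NYT (3)). DOR4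
for `P = Q`: `∑_ψ U ψ u * conj (U ψ u') = |D| [u = u']` (`T ⊓ L = C` by FRA4, so `t u t⁻¹ = u`). `|B| = |D|`, so also `∑_u U ψ u * conj (U ψ' u) = |D| [ψ = ψ']` (`Matrix.mul_eq_one_comm` after choosing an equivalence `B ≃ D`, or square matrices). `U (cjF a ψ) (a u a⁻¹) = U ψ u` (DDT4), `cjF a ψ ∈ B` (FRA4 (3)). So
`|D| * #{ψ | cjF a ψ = ψ} = ∑_ψ ∑_u U (cjF a ψ) u * conj (U ψ u) = ∑_u ∑_ψ U ψ (a⁻¹ u a) * conj (U ψ u) = |D| * #{u | a⁻¹ u a = u}`. -/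
def FXC_stmt : Prop :=
  ∀ (p : ℕ) (M : Ideal (integralClosure ℤ ℂ)), Setup p M → p ≠ 2 → ∀ (G : Type) [Group G] [Finite G]
    (D : Subgroup G) (x : G) (θ χ : G → ℂ), LoA p M D x θ χ → ∀ Q ≤ D, RP M D θ Q → ∀ a ∈ TT M D θ, a ∈ nz Q →
    {ψ : G → ℂ | ψ ∈ Bl M (cz Q) θ ∧ cjF a ψ = ψ}.ncard = {u : G | u ∈ D ∧ a * u = u * a}.ncard

/-- **OM1** (medium; from REC, SCT, FXC, NYT, KKF). Proof: induction on `|cz Q|` (for all `Q`). REC for `y = 1` and SCT, FXC: `#{u ∈ D | a u = u a} = ∑_{u ∈ D, a u = u a} om p (Cz L u) (eBl M (Cz L u) θ) a 1`. If `Cz L u ≠ L` then it is smaller, `Cz L u = cz (Q ⊔ zpowers u)`, and the term is `1` by the induction hypothesis (NYT). If `Cz L u = L` the term is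
`om p L (eBl M L θ) a 1`. There is at least one such `u` (`u = 1`). So `om p L (eBl M L θ) a 1 = 1`. -/
def OM1_stmt : Prop :=
  ∀ (p : ℕ) (M : Ideal (integralClosure ℤ ℂ)), Setup p M → p ≠ 2 → ∀ (G : Type) [Group G] [Finite G]
    (D : Subgroup G) (x : G) (θ χ : G → ℂ), LoA p M D x θ χ → ∀ Q ≤ D, RP M D θ Q → ∀ a ∈ TT M D θ, a ∈ nz Q →
    om p (cz Q) (eBl M (cz Q) θ) a 1 = 1

/-- **OM3** (short to medium; from REC, KKF, HIB, NYT). Symmetry. Proof: the same induction: `ta L e a y = conj (ta L e y a)` (KKF (7), `HI`), REC for `(a, y)` and for `(y, a)` (`[y, a] = [a, y]⁻¹ ∈ cz D`), the terms with `Cz L u ≠ L` agree by induction; the others are all equal to `om_Q (a, y)`, resp. `conj (om_Q (y, a))`, and their number is not `0`. -/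
def OM3_stmt : Prop :=
  ∀ (p : ℕ) (M : Ideal (integralClosure ℤ ℂ)), Setup p M → ∀ (G : Type) [Group G] [Finite G]
    (D : Subgroup G) (x : G) (θ χ : G → ℂ), LoA p M D x θ χ → ∀ Q ≤ D, RP M D θ Q → ∀ a ∈ TT M D θ, a ∈ nz Q →
    ∀ y ∈ TT M D θ, y ∈ nz Q → a * y * a⁻¹ * y⁻¹ ∈ cz D →
    om p (cz Q) (eBl M (cz Q) θ) a y = (starRingEnd ℂ) (om p (cz Q) (eBl M (cz Q) θ) y a)

/-! ## 4. The comparison -/

/-- **EQP** (medium; PORT of EQY, `grep -rl 'theorem EQY' Pool/Agent/*/FI/`; from BLE, MLT, EXB, SBI, CVF, CCI, IDM, NIL of GR). As EQY with the `p`-subgroup `P ≤ L` in place of `y`: `K = L ⊓ cz P`, `e = eBl M L θ`, `e' = rsH K e`, `f = eS K (Bq M L K θ)`. `cv e' e' - e'` has values `InM` (MLT, `cv e e = e`), `cv f f = f`, `cv e' f = cv f e'`, so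
`z = e' - f` satisfies: `cv (cv z z) z - z` has values `InM`. For `η ∈ IrrOn K` take `ψ` from EXB (`SB M L η ψ`); `cc η e' = cc η e` is congruent to `cc ψ e` (SBI), which is `1` if `ψ ∈ Bl M L θ`, i.e. `η ∈ Bq M L K θ`, and `0` otherwise; so `cc η z` is `InM`. NIL of GR. -/
def EQP_stmt : Prop :=
  ∀ (p : ℕ) (M : Ideal (integralClosure ℤ ℂ)), Setup p M → ∀ (G : Type) [Group G] [Finite G] (L P : Subgroup G),
    IsPGroup p P → P ≤ L → ∀ θ : G → ℂ, ∀ t ∈ L ⊓ cz P,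
    InM M (eBl M L θ t - eS (L ⊓ cz P) (Bq M L (L ⊓ cz P) θ) t)

/-- **RCN** (medium; from `LoA.con`, `LoA.cnj`, FEQ, FSI, TPR). Conjugation of subpairs inside `L = cz Q`. Proof: `Q₁ = Q ⊔ P` is a `p`-group (`P ≤ cz Q`), `cz Q₁ = cz Q ⊓ cz P`, `η ∈ IrrOn (cz Q₁)`, `Induces M η χ` (FSI (2) for `L`, with `ψ ∈ Bl M L θ`: `SB M L η θ`, and `Induces M θ χ`: `rt.ind`). `con`: `g` with `cjS g Q₁ ≤ D`, `SB M (cz (cjS g Q₁)) θ (cjF g η)`.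
`D₁ = cjS g⁻¹ D ≥ Q₁`, `θ₁ = cjF g⁻¹ θ ∈ IrrOn (cz D₁)`, `SB M (cz Q₁) θ₁ η` (FEQ), so `SB M (cz Q) θ₁ η` (FSI (1)) and `SB M (cz Q) θ₁ ψ` for `ψ ∈ Bl M (cz Q) θ` (exists by EXB). `cnj` for `P = Q`: `l ∈ cz Q` with `cjS l D₁ = D`, `SB M (cz D) (cjF l θ₁) θ`. Then `cjS l P ≤ D`, and on `cz Q ⊓ cz (cjS l P) = cjS l (cz Q₁) ≥ cz D`:
`θ ~ cjF l θ₁ ~ cjF l η`. -/
def RCN_stmt : Prop :=
  ∀ (p : ℕ) (M : Ideal (integralClosure ℤ ℂ)), Setup p M → ∀ (G : Type) [Group G] [Finite G]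
    (D : Subgroup G) (x : G) (θ χ : G → ℂ), LoA p M D x θ χ → ∀ Q ≤ D, ∀ P : Subgroup G, IsPGroup p P →
    P ≤ cz Q → ∀ η ∈ IrrOn (cz Q ⊓ cz P), SB M (cz Q) η θ →
    ∃ l ∈ cz Q, cjS l P ≤ D ∧ SB M (cz Q ⊓ cz (cjS l P)) θ (cjF l η)

/-- **EX1** (medium; from OM1, KKF). Some class sum is a unit. Proof: `L = cz Q`, `e = eBl M L θ`. For `x ∈ a L` `KK L e x x = ∑_{l ∈ L} e (x l x⁻¹ l⁻¹) = |Cz L x| * s x`, `s x = ∑_{k ∈ κ x} e (x k⁻¹)`, `κ x = {l x l⁻¹ | l ∈ L}` (`|κ x| * |Cz L x| = |L|`). `s x` is `IntAt` and constant on `κ x`. By OM1 and KKF (5)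
`1 = |L|⁻¹ ∑_{x ∈ aL, p-regular} KK L e x x = ∑_x s x / |κ x|`, the sum of `s` over the classes (choose representatives). If all `s x` were `InM` then `1` would be. -/
def EX1_stmt : Prop :=
  ∀ (p : ℕ) (M : Ideal (integralClosure ℤ ℂ)), Setup p M → p ≠ 2 → ∀ (G : Type) [Group G] [Finite G]
    (D : Subgroup G) (x : G) (θ χ : G → ℂ), LoA p M D x θ χ → ∀ Q ≤ D, RP M D θ Q → ∀ a ∈ TT M D θ, a ∈ nz Q →
    ∃ w : G, a⁻¹ * w ∈ cz Q ∧ PReg p w ∧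
      ¬ InM M (∑ᶠ k ∈ {k : G | ∃ l ∈ cz Q, l * w * l⁻¹ = k}, eBl M (cz Q) θ (w * k⁻¹))

/-- **EX2** (medium to long; from EQP, RCN, STA, NS1, HIB, CFX, SYL, BLE). For such a `w` the group `D₁ = Cz D a` (if `D₁ ≤ Q`) has the order of a Sylow `p`-subgroup of `Cz L w`, `L = cz Q`. Proof: `D₁ ≤ Q ≤ D`, so `D₁` commutes with `L ∋ a⁻¹ w` and with `a`: `D₁ ≤ Cz L w`, `|D₁| ≤ pp p (Cz L w)`. Let `P₀` be a Sylow `p`-subgroup of `Cz L w` (SYL), `κ` the `L`-class of `w`.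
`P₀` acts on `κ` by conjugation (`w` commutes with `P₀`, `e` is a class function): by CFX (`f k = e (w k⁻¹)` for `k ∈ κ`, `0` otherwise) the sum over the `k ∈ κ ∩ cz P₀` of `e (w k⁻¹)` is not `InM`. `w k⁻¹ ∈ K = L ⊓ cz P₀`; EQP: `e` may be replaced by `eS K (Bq M L K θ)`, the sum of the `eBl M K η` over the blocks in `Bq M L K θ`
(finite; choose representatives `η`; BLE). So for some `η ∈ IrrOn K`, `SB M L η θ`, with `g = eBl M K η`: `∑_{k ∈ κ ∩ cz P₀} g (w k⁻¹)` is not `InM`, so not `0`. `w ∈ nz K`. If no `ψ ∈ Bl M K η` with `cjF w ψ ∈ Bl M K η` then by NS1 (HIB (3)) `KK K g w k = 0` for all `k`; `κ ∩ cz P₀` is stable under conjugation by `K`, so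
`|K| ∑_k g (w k⁻¹) = ∑_k ∑_{t ∈ K} g (w t k⁻¹ t⁻¹) = ∑_k KK K g w k = 0`, a contradiction. RCN: `l ∈ L` with `P' = cjS l P₀ ≤ D` and `SB M (L ⊓ cz P') θ (cjF l η)`. `w' = l w l⁻¹ ∈ a L` commutes with `P'`, and `cjF w' ψ' ∈ Bl M (L ⊓ cz P') θ` for `ψ' = cjF l ψ` (FEQ). STA: `a` commutes with `P'`, so `P' ≤ D₁`
and `pp p (Cz L w) = |P₀| = |P'| ≤ |D₁|`. -/
def EX2_stmt : Prop :=
  ∀ (p : ℕ) (M : Ideal (integralClosure ℤ ℂ)), Setup p M → ∀ (G : Type) [Group G] [Finite G]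
    (D : Subgroup G) (x : G) (θ χ : G → ℂ), LoA p M D x θ χ → ∀ Q ≤ D, RP M D θ Q → ∀ a ∈ TT M D θ, a ∈ nz Q →
    Cz D a ≤ Q → ∀ w : G, a⁻¹ * w ∈ cz Q →
    ¬ InM M (∑ᶠ k ∈ {k : G | ∃ l ∈ cz Q, l * w * l⁻¹ = k}, eBl M (cz Q) θ (w * k⁻¹)) →
    pp p (Cz (cz Q) w) = Nat.card (Cz D a)

/-- **MLC** (medium; from CFX, EQP, CVF, BLE, SYL). THE CONGRUENCE, first part. `L = cz Q`, `D₁ = Cz D a`, `K = L ⊓ cz D₁ = cz (Q ⊔ D₁)`, `w₀ : G → ℂ` a `K`-class function, zero outside `a K`, values `IntAt`, with the property (S): if `w₀ t` is not `InM`, `P ≤ Cz K t` a `p`-group, then `|P| ≤ |D₁|`. Let `W` be a set of representatives of the left cosets `l K` in `L` (`W ⊆ L` finite,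
every `l ∈ L` is `w k` for exactly one `w ∈ W`), `Θ t = ∑_{l ∈ W} w₀ (l⁻¹ t l)`. (1) `Θ` is invariant under `L`, zero outside `a L`, and does not depend on `W`. (2) for `t ∈ a K`: `cv e Θ t` is congruent to `∑_{z ∈ K} f z * Θ' (z⁻¹ t)`, `f = eS K (Bq M L K θ)`, `Θ' t = ∑_{l ∈ W ∩ nz D₁} w₀ (l⁻¹ t l)`. Proof of (2): all elements of `a K` commute with `D₁`
(`a` commutes with `D₁`). CFX for `D₁` and `z ↦ e z * Θ (z⁻¹ t)`: the sum over `z ∈ cz D₁`, i.e. `z ∈ K` (`e z = 0` outside `L`); `e z` is congruent to `f z` (EQP), and `z⁻¹ t ∈ a K`. For `t' ∈ a K`: `D₁` acts on the left cosets of `K` in `L` and `l ↦ w₀ (l⁻¹ t' l)` is invariant (`t'` commutes with `D₁ ≤ L`); by ORP only the fixed cosets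
contribute: `l⁻¹ D₁ l ≤ K`. For such `l` let `t'' = l⁻¹ t' l` with `w₀ t''` not `InM` (so `t'' ∈ a K`): `D₁` and `l⁻¹ D₁ l` commute with `t''` and `D₁` is central in `K`, so `D₁ ⊔ l⁻¹ D₁ l` is a `p`-subgroup of `Cz K t''` of order `≤ |D₁|` by (S): `l⁻¹ D₁ l = D₁`, `l ∈ nz D₁`. (Uses ORP of SpecA.) -/
def MLC_stmt : Prop :=
  ∀ (p : ℕ) (M : Ideal (integralClosure ℤ ℂ)), Setup p M → ∀ (G : Type) [Group G] [Finite G]
    (D : Subgroup G) (x : G) (θ χ : G → ℂ), LoA p M D x θ χ → ∀ Q ≤ D, ∀ a ∈ TT M D θ, a ∈ nz Q →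
    ∀ w₀ : G → ℂ, (∀ k ∈ cz Q ⊓ cz (Cz D a), ∀ t, w₀ (k * t * k⁻¹) = w₀ t) → (∀ t, IntAt M (w₀ t)) →
    (∀ t, a⁻¹ * t ∉ cz Q ⊓ cz (Cz D a) → w₀ t = 0) →
    (∀ t, ¬ InM M (w₀ t) → ∀ P : Subgroup G, IsPGroup p P → P ≤ Cz (cz Q ⊓ cz (Cz D a)) t →
      Nat.card P ≤ Nat.card (Cz D a)) →
    ∀ W : Finset G, (∀ l ∈ W, l ∈ cz Q) →
    (∀ l ∈ cz Q, ∃! w, w ∈ W ∧ w⁻¹ * l ∈ cz Q ⊓ cz (Cz D a)) →
    (∀ l ∈ cz Q, ∀ t, ∑ w ∈ W, w₀ (w⁻¹ * (l * t * l⁻¹) * w) = ∑ w ∈ W, w₀ (w⁻¹ * t * w)) ∧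
    (∀ t, a⁻¹ * t ∉ cz Q → ∑ w ∈ W, w₀ (w⁻¹ * t * w) = 0) ∧
    ∀ t, a⁻¹ * t ∈ cz Q ⊓ cz (Cz D a) →
      InM M (cv (eBl M (cz Q) θ) (fun s => ∑ w ∈ W, w₀ (w⁻¹ * s * w)) t -
        ∑ᶠ z ∈ ((cz Q ⊓ cz (Cz D a) : Subgroup G) : Set G),
          eS (cz Q ⊓ cz (Cz D a)) (Bq M (cz Q) (cz Q ⊓ cz (Cz D a)) θ) z *
            ∑ᶠ w ∈ {w : G | w ∈ W ∧ w ∈ nz (Cz D a)}, w₀ (w⁻¹ * (z⁻¹ * t) * w))

/-- **MLA** (medium; from MLC, EX1, EX2, HIB, FRA4, NYT, CVF, CCI, IDM, EXP). THE CONGRUENCE, second part. `L = cz Q`, `D₁ = Cz D a`, `Q' = Q ⊔ D₁`, `K = cz Q' = L ⊓ cz D₁`, `e' = eBl M K θ`. EX1 and EX2 for `Q'` (`RP` by NYT; `a ∈ nz Q'`, `D₁ ≤ Q'`): `x₀ ∈ a K`, `p`-regular, `pp p (Cz K x₀) = |D₁|`, `s = ∑_{k ∈ κ} e' (x₀ k⁻¹)` not `InM`, `κ` the `K`-class of `x₀`.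
`w₀ t = ∑_{k ∈ κ} e' (t k⁻¹)`: it is `cv e' 1_κ`, a `K`-class function, zero outside `a K`, `IntAt`, `w₀ x₀ = s`, and `∑_{z ∈ K} e' z * w₀ (z⁻¹ t) = w₀ t` (`cv e' e' = e'`). (S): let `w₀ t` be not `InM`, `P ≤ Cz K t` a `p`-group; `P` acts on `κ` by conjugation and `k ↦ e' (t k⁻¹)` is invariant, so by CFX some `k ∈ κ ∩ cz P`, and `P ≤ Cz K k`,
`|P| ≤ pp p (Cz K k) = pp p (Cz K x₀) = |D₁|` (SYL). MLC: for `t ∈ a K` `g t := cv e Θ t` is congruent to `cv f Θ'`. Let `h t = ∑_{z ∈ K} e' z * g (z⁻¹ t)`; as `cv e' f = e'` (`Bl M K θ ⊆ Bq M L K θ` by `TRNb`; CCI, IDM, EXP) `h x₀` is congruent to `∑_{z ∈ K} e' z * Θ' (z⁻¹ x₀) = ∑_{l ∈ W ∩ nz D₁} ∑_{z ∈ K} e' z * w₀ (l⁻¹ z⁻¹ x₀ l)`. For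
`l ∈ W ∩ nz D₁`: `l` normalises `K`, insert `w₀ s = ∑_{z'' ∈ K} e' z'' * w₀ (z''⁻¹ s)`, `z'' = l⁻¹ t l`: the inner sum is `∑_{t ∈ K} cv e' (fun s => e' (l⁻¹ s l)) t * w₀ (l⁻¹ t⁻¹ x₀ l)`, which is `0` if no `ψ ∈ Bl M K θ` has `cjF l ψ ∈ Bl M K θ` (HIB (3)); otherwise FRA4 (2) for `P = Q'` (`l ∈ nz Q'`: `l ∈ L` centralises `Q`, normalises `D₁`) gives
`k ∈ K` with `k l ∈ T ⊓ L = C ≤ K`, so `l ∈ K`: exactly one such `l ∈ W` (the one with `l⁻¹ * 1 ∈ K`), and its term is `∑_z e' z * w₀ (z⁻¹ x₀) = w₀ x₀ = s`. So `h x₀` is congruent to `s`, not `InM`, so `h x₀ ≠ 0`. (If `Bl M K θ` is empty then `e' = 0`, `s = 0`, a contradiction.) -/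
def MLA_stmt : Prop :=
  ∀ (p : ℕ) (M : Ideal (integralClosure ℤ ℂ)), Setup p M → p ≠ 2 → ∀ (G : Type) [Group G] [Finite G]
    (D : Subgroup G) (x : G) (θ χ : G → ℂ), LoA p M D x θ χ → ∀ Q ≤ D, RP M D θ Q → ∀ a ∈ TT M D θ, a ∈ nz Q →
    ∃ Θ : G → ℂ, (∀ l ∈ cz Q, ∀ t, Θ (l * t * l⁻¹) = Θ t) ∧ (∀ t, a⁻¹ * t ∉ cz Q → Θ t = 0) ∧
      ∃ w : G, a⁻¹ * w ∈ cz (Q ⊔ Cz D a) ∧ PReg p w ∧
        ∑ᶠ z ∈ ((cz (Q ⊔ Cz D a) : Subgroup G) : Set G), eBl M (cz (Q ⊔ Cz D a)) θ z *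
          cv (eBl M (cz Q) θ) Θ (z⁻¹ * w) ≠ 0

/-- **MLE** (medium; from MLA, OM1, OMR, KKF, KKR, HIB, NYT). Proof: `L = cz Q`, `D₁ = Cz D a`, `Q' = Q ⊔ D₁`, `K = cz Q' ≤ L`, `e = eBl M L θ`, `e' = eBl M K θ`. `y ∈ nz D₁` (`u ∈ D₁`: `a y u y⁻¹ a⁻¹ = y (c a) u (c a)⁻¹ y⁻¹`-type computation with `[a, y] ∈ cz D`), so `y ∈ nz Q'`, `a ∈ nz Q'`; `RP` for `Q'`. OM1 and OMR for `Q` and `Q'`: `RK p L e a F`, `RK p K e' a F'`
(`NY`, `HI`: NYT, HIB). `Θ`, `w` from MLA, `g = cv e Θ`. For `p`-regular `t ∈ a L`: `|L| g t = ∑_{x' ∈ aL} KK L e t x' * Θ x'` (KKF (6)) `= ∑_{x' p-regular}` (KKR) `= |L| F t * c`, so `g (y t y⁻¹) = conj (om_Q) * g t` (RK; `a⁻¹ y a y⁻¹ ∈ L`). `h t = ∑_{z ∈ K} e' z * g (z⁻¹ t)` for `t ∈ a K`; put `g' = g` on `a K`, `0` outside: `h = cv e' g'` on `a K`, `g'` is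
`K`-invariant. By KKF (6) for `K`: `|K| h t = ∑_{x' ∈ aK, p-regular} KK K e' t x' * g x'` for `p`-regular `t`; so `h t = F' t * c'` and `h (y t y⁻¹) = conj (om_Q') * h t`; and by KKF (4) (`y` normalises `K`, `e'`) also `h (y t y⁻¹) = conj (om_Q) * h t`. At `t = w` `h w ≠ 0`. -/
def MLE_stmt : Prop :=
  ∀ (p : ℕ) (M : Ideal (integralClosure ℤ ℂ)), Setup p M → p ≠ 2 → ∀ (G : Type) [Group G] [Finite G]
    (D : Subgroup G) (x : G) (θ χ : G → ℂ), LoA p M D x θ χ → ∀ Q ≤ D, RP M D θ Q → ∀ a ∈ TT M D θ, a ∈ nz Q →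
    ∀ y ∈ TT M D θ, y ∈ nz Q → a * y * a⁻¹ * y⁻¹ ∈ cz D →
    om p (cz Q) (eBl M (cz Q) θ) a y = om p (cz (Q ⊔ Cz D a)) (eBl M (cz (Q ⊔ Cz D a)) θ) a y

/-! ## 5. Reduction from `R` to `D` -/

/-- **CYV** (medium; pure). Two commuting automorphisms of an irreducible module generate a cyclic group. Proof: `V` (additive: `Additive V`) is a module over the commutative ring `S = MvPolynomial (Fin 2) ℤ` (or the commutative subring of `AddMonoid.End` generated by `α`, `β`: `Algebra.adjoin ℤ {α, β}` with `Algebra.adjoinCommRingOfComm`), simple by the hypothesis.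
`V ≃ S ⧸ m` with a maximal ideal `m` (`isSimpleModule_iff_quot_maximal`), so `S ⧸ m` is a finite field and the images of `α`, `β` in its cyclic unit group `U` (nonzero, as `α`, `β` are invertible) generate a cyclic subgroup: some `γ = α^s β^t` with `α = γ^i`, `β = γ^j` in `U`. An element of `S` acting as `1` on `S ⧸ m` acts trivially on `V`. -/
def CYV_stmt : Prop :=
  ∀ (V : Type) [CommGroup V] [Finite V] [Nontrivial V] (α β : MulAut V), Commute α β →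
    (∀ W : Subgroup V, (∀ w ∈ W, α w ∈ W) → (∀ w ∈ W, β w ∈ W) → W = ⊥ ∨ W = ⊤) →
    ∃ s t i j : ℤ, (α ^ s * β ^ t) ^ i = α ∧ (α ^ s * β ^ t) ^ j = β

/-- **COP** (short to medium; pure). Coprime action. Proof: let `q ∈ Q'`, `m = ∏_{i < N} k^i q k^(-i) ∈ D` (`D` is commutative, `k ∈ nz D`); `k m k⁻¹ = m` as `k ^ N` commutes with `q`. Every `k^i q k^(-i) q⁻¹` is in `Q` (induction, `k ∈ nz Q`), so `m * q^(-N) ∈ Q` and `q ^ N ∈ Q ⊔ Cz D k`; `p ∤ N`, so `q` is a power of `q ^ N`. -/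
def COP_stmt : Prop :=
  ∀ (p : ℕ), p.Prime → ∀ (G : Type) [Group G] [Finite G] (D Q Q' : Subgroup G), IsPGroup p D →
    (∀ c ∈ D, ∀ d ∈ D, c * d = d * c) → Q ≤ Q' → Q' ≤ D → ∀ k : G, k ∈ nz D → k ∈ nz Q → ∀ N : ℕ, ¬ p ∣ N →
    k ^ N ∈ cz D → (∀ q ∈ Q', k * q * k⁻¹ * q⁻¹ ∈ Q) → Q' ≤ Q ⊔ Cz D k

/-- **OQS** (medium; from MLE, COP, NYT, OM1, OM3, OMP, HIB). One step. Let `ω_Q (a, y)` be `om p (cz Q) (eBl M (cz Q) θ) a y`. CLAIM: if `k ∈ T` normalises `Q` and `Q'`, acts trivially on `Q' / Q`, and `y ∈ T` normalises `Q`, `Q'`, `[k, y] ∈ C`, then `ω_Q (k, y) = ω_Q' (k, y)`: `N = C.relIndex T` is prime to `p` and `k ^ N ∈ C`; COP: `Q' ≤ Q ⊔ Cz D k`, so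
`Q ⊔ Cz D k = Q' ⊔ Cz D k`, and MLE for `Q` and for `Q'`. Now `g ∈ T`, `a = g^i k₁`, `y = g^j k₂` modulo `C` (all commute modulo `C`). By OMP (OM1, HIB, NYT) `ω = ω_Q` is multiplicative in the second argument, `ω (g, g) = 1`, it depends only on cosets of `L ≥ C`, `ω * conj ω = 1`; with OM3 `ω (a, y) * ω (y, a) = 1`, so it is multiplicative in the first
argument too (on commuting pairs). So `ω (a, y) = ω (g^i k₁, g^j k₂) = ω (g^i, g^j) ω (k₁, g^j) ω (g^i, k₂) ω (k₁, k₂) = 1 * ω (k₁, g^j) * ω (k₂, g^i)⁻¹ * ω (k₁, k₂)`, the same for `Q'`, and all terms agree by the CLAIM. -/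
def OQS_stmt : Prop :=
  ∀ (p : ℕ) (M : Ideal (integralClosure ℤ ℂ)), Setup p M → p ≠ 2 → ∀ (G : Type) [Group G] [Finite G]
    (D : Subgroup G) (x : G) (θ χ : G → ℂ), LoA p M D x θ χ → ∀ Q Q' : Subgroup G, Q ≤ Q' → Q' ≤ D → RP M D θ Q →
    ∀ g ∈ TT M D θ, ∀ k₁ ∈ TT M D θ, ∀ k₂ ∈ TT M D θ,
    g * k₁ * g⁻¹ * k₁⁻¹ ∈ cz D → g * k₂ * g⁻¹ * k₂⁻¹ ∈ cz D → k₁ * k₂ * k₁⁻¹ * k₂⁻¹ ∈ cz D →
    (g ∈ nz Q ∧ g ∈ nz Q') → (k₁ ∈ nz Q ∧ k₁ ∈ nz Q') → (k₂ ∈ nz Q ∧ k₂ ∈ nz Q') →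
    (∀ q ∈ Q', k₁ * q * k₁⁻¹ * q⁻¹ ∈ Q) → (∀ q ∈ Q', k₂ * q * k₂⁻¹ * q⁻¹ ∈ Q) → ∀ i j : ℤ,
    om p (cz Q) (eBl M (cz Q) θ) (g ^ i * k₁) (g ^ j * k₂) =
      om p (cz Q') (eBl M (cz Q') θ) (g ^ i * k₁) (g ^ j * k₂)

/-- **OQD** (medium; from OQS, CYV, NYT, OMP). Proof: among the `Q` with `R ≤ Q ≤ D`, `a, y ∈ nz Q` and `ω_Q (a, y) = ω_R (a, y)` choose one of maximal order (`Q = R` is one). Suppose `Q ≠ D`. Among the `Q'` with `Q < Q' ≤ D`, `a, y ∈ nz Q'` (`Q' = D` is one) choose one of minimal order. `V = Q' / Q` (commutative, nontrivial), `α`, `β` the automorphisms of `V` induced by conjugation with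
`a`, `y`; they commute (`[a, y] ∈ cz D`), and a subgroup of `V` stable under both is `⊥` or `⊤` (its preimage is between `Q` and `Q'`, stable under `a`, `y`; finite, so in the normalisers). CYV: `s t i j`. `g = a^s y^t ∈ T`, `k₁ = g^(-i) a`, `k₂ = g^(-j) y`: they act trivially on `V`, all normalise `Q`, `Q'`, and all commutators are in `cz D` (the group generated by `a`, `y` and
`cz D` is commutative modulo `cz D`). OQS: `ω_Q (a, y) = ω_Q' (a, y)`, contradiction to the maximality. -/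
def OQD_stmt : Prop :=
  ∀ (p : ℕ) (M : Ideal (integralClosure ℤ ℂ)), Setup p M → p ≠ 2 → ∀ (G : Type) [Group G] [Finite G]
    (D : Subgroup G) (x : G) (θ χ : G → ℂ), LoA p M D x θ χ → ∀ R ≤ D, RP M D θ R → ∀ a ∈ TT M D θ, a ∈ nz R →
    ∀ y ∈ TT M D θ, y ∈ nz R → a * y * a⁻¹ * y⁻¹ ∈ cz D →
    om p (cz R) (eBl M (cz R) θ) a y = om p (cz D) (eBl M (cz D) θ) a y

/-! ## 6. The counting formula -/

/-- **ENS** (medium; from IDM, EXP, CVF, CFA and CCJ of DR, FOV, FEQ, FSI, B2). The idempotent of the blocks of `N = nz Q` over `B`, `L = cz Q`, if these blocks cover only one orbit (hypothesis `hor`). Proof: both sides are class functions of `N` (the right side is supported on `L ≤ N`); EXP: compare `cc φ`, `φ ∈ IrrOn N`. Left: `|St| * [φ ∈ Blk M χ N]` (IDM; `Blk ⊆ IrrOn`).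
Right: `cc φ (e ∘ conj n⁻¹) = cc φ e`, so `|N| * cc φ e`. CFA (1): `ψ ∈ IrrOn L`, `OverE L N φ ψ ε`: `φ = ε ∑ ψ'` on `L`, over the conjugates `ψ'` of `ψ`; `∑_x e x * ψ' x = ψ' 1 * [ψ' ∈ Bl M L θ]` (IDM), all `ψ' 1 = ψ 1`; so `cc φ e = #{ψ' ∈ Bl} / #{ψ'}`. If a conjugate `ψ'` of `ψ` is in `Bl M L θ` we may take `ψ = ψ'`, and
`|N| * #{ψ' ∈ Bl} / #{ψ'} = #{n ∈ N | cjF n ψ ∈ Bl M L θ}`, which is `|St|` (FEQ: `cjF n ψ ∈ Bl` for one `ψ ∈ Bl` iff for all). `φ ∈ Blk M χ N` iff `Induces M φ χ` iff `Induces M ψ χ` (FOV for `P = Q`) iff some conjugate of `ψ` is in `Bl M L θ`: `→` `hor`; `←` `Induces M θ χ`, FSI (2), and conjugation (FEQ). -/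
def ENS_stmt : Prop :=
  ∀ (p : ℕ) (M : Ideal (integralClosure ℤ ℂ)), Setup p M → ∀ (G : Type) [Group G] [Finite G]
    (D : Subgroup G) (x : G) (θ χ : G → ℂ), LoA p M D x θ χ → ∀ Q ≤ D,
    (∀ ψ ∈ IrrOn (cz Q), Induces M ψ χ → ∃ g ∈ nz Q, cjF g ψ ∈ Bl M (cz Q) θ) → ∀ t : G,
    ({n : G | n ∈ nz Q ∧ ∃ ψ ∈ Bl M (cz Q) θ, cjF n ψ ∈ Bl M (cz Q) θ}.ncard : ℂ) *
      eS (nz Q) (Blk M χ (nz Q)) t = ∑ᶠ n ∈ ((nz Q : Subgroup G) : Set G), eBl M (cz Q) θ (n⁻¹ * t * n)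

/-- **LFN** (medium; from ENS, IDM, BCL, B2). Proof: `N = nz Q`, `S = Blk M χ N`, `St` the set in ENS. `|N| LL p M χ N = ∑_{v ∈ N, p-regular} Sf S v v` (exchange the finite sums; `EE`), and `Sf S v v = ∑_{z ∈ N} eS N S (z⁻¹ v⁻¹ z v)` (IDM, last item). `z⁻¹ v⁻¹ z v` is the inverse of `v⁻¹ z⁻¹ v z`; with `v ↦ v⁻¹`, `z ↦ z⁻¹` (`Sf S v⁻¹ v⁻¹ = Sf S v v`
summed over the inverse-closed set) `|N| LL = ∑_v ∑_z eS N S (z v z⁻¹ v⁻¹)`, then `z v z⁻¹ v⁻¹ = v' ..`: replace `v` by `z⁻¹ v z` for fixed `z` (a bijection of the `p`-regular elements of `N`) to get `∑_v ∑_z eS N S (v z v⁻¹ z⁻¹)`. Multiply by `|St|`, ENS, conjugate `v`, `z` by `n`: `|St| |N| LL = |N| ∑_v ∑_z eBl M (cz Q) θ (v z v⁻¹ z⁻¹)`. -/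
def LFN_stmt : Prop :=
  ∀ (p : ℕ) (M : Ideal (integralClosure ℤ ℂ)), Setup p M → ∀ (G : Type) [Group G] [Finite G]
    (D : Subgroup G) (x : G) (θ χ : G → ℂ), LoA p M D x θ χ → ∀ Q ≤ D,
    (∀ ψ ∈ IrrOn (cz Q), Induces M ψ χ → ∃ g ∈ nz Q, cjF g ψ ∈ Bl M (cz Q) θ) →
    ({n : G | n ∈ nz Q ∧ ∃ ψ ∈ Bl M (cz Q) θ, cjF n ψ ∈ Bl M (cz Q) θ}.ncard : ℂ) * LL p M χ (nz Q) =
      ∑ᶠ v ∈ {v : G | v ∈ nz Q ∧ PReg p v}, ∑ᶠ z ∈ ((nz Q : Subgroup G) : Set G),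
        eBl M (cz Q) θ (v * z * v⁻¹ * z⁻¹)

/-- **LFM** (medium; from LFN, HIB, NS1, NS2, KKF, FRA4, NYT). Proof: `L = cz Q`, `N = nz Q`, `T_Q = T ⊓ N`, `St` the set of the `n ∈ N` stabilising the block: `St = L T_Q` (FRA4 (2), (3)), `|St| * |C| = |L| * |T_Q|` (`L ⊓ T_Q = C`). Right side of LFN: group the pairs `(v, z) ∈ N × N` by the cosets `(a L, y L)`: the terms with `[a, y] ∉ L` vanish (`e` is supported on `L`), for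
`[a, y] ∈ L` the sum over `v ∈ a L` `p`-regular, `z ∈ y L` is `|L| om p L e a y`; it is `0` if `a ∉ St` (as in TRM: the sum over `z` is `KK L e v (y v y⁻¹)`, NS1 with HIB (3)) and if `a ∈ St`, `y ∉ St` (NS2, HIB (3)). So the right side is `|L|⁻² ∑_{a, y ∈ St, [a, y] ∈ L} |L| om p L e a y`, and every coset of `L` in `St` contains `|C|` elements of `T_Q`:
`= |C|⁻² |L| ∑_{a, y ∈ T_Q, [a, y] ∈ L} om p L e a y`, and `[a, y] ∈ T ⊓ L = C`. Multiply by `|C|² / |L|`. -/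
def LFM_stmt : Prop :=
  ∀ (p : ℕ) (M : Ideal (integralClosure ℤ ℂ)), Setup p M → ∀ (G : Type) [Group G] [Finite G]
    (D : Subgroup G) (x : G) (θ χ : G → ℂ), LoA p M D x θ χ → ∀ Q ≤ D, RP M D θ Q →
    (∀ ψ ∈ IrrOn (cz Q), Induces M ψ χ → ∃ g ∈ nz Q, cjF g ψ ∈ Bl M (cz Q) θ) →
    (Nat.card (TT M D θ ⊓ nz Q : Subgroup G) : ℂ) * (Nat.card (cz D) : ℂ) * LL p M χ (nz Q) =
      ∑ᶠ a ∈ {a : G | a ∈ TT M D θ ∧ a ∈ nz Q}, ∑ᶠ y ∈ {y : G | y ∈ TT M D θ ∧ y ∈ nz Q ∧ a * y * a⁻¹ * y⁻¹ ∈ cz D},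
        om p (cz Q) (eBl M (cz Q) θ) a y

/-! **NIL** is stated in `helper70/LE/Defs` (`NIL_stmt` of this namespace; short to medium; from LFM, OQD, LOA, NYT). Proof: `LoA` by LOA. LFM for `Q = R` (`nz R = ⊤`) and for `Q = D` (`RP` for `D`: NYT (3), or directly). Hypothesis on the blocks: `LoA.con` for `Q = R` gives `g` with `SB M (cz (cjS g R)) θ (cjF g ψ)`, and `cjS g R = R` as `g ∈ nz R = ⊤`; for `Q = D`
`cjS g D ≤ D`, so `cjS g D = D` (cardinality), `g ∈ nz D`. `T ⊓ nz R = T = T ⊓ nz D` (`TT M D θ ≤ nz D`). The right sides agree termwise by OQD. `|T| |C| ≠ 0`. -/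

end Pool.Agent.LE
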